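import Mathlib

/-!
The averaging argument (one prime at a time) for the Erdos-Rankin covering.
-/

open Finset

namespace Pool.Agent.Helper7.Cover

/-- One-prime-at-a-time averaging. -/
lemma avg (S : Finset ℤ) (A : ℕ → Finset ℕ) (w : ℕ → ℕ → ℤ → ℝ) (hw : ∀ p b j, 0 ≤ w p b j)
    (P : Finset ℕ) (hA : ∀ p ∈ P, (A p).Nonempty) (a : ℤ → ℝ) (ha : ∀ j, 0 ≤ a j) :
    ∃ b : ℕ → ℕ, (∀ p ∈ P, b p ∈ A p) ∧
      ∑ j ∈ S, a j * ∏ p ∈ P, w p (b p) j ≤
        ∑ j ∈ S, a j * ∏ p ∈ P, ((∑ x ∈ A p, w p x j) / #(A p)) := by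
  classical
  induction P using Finset.induction_on generalizing a with
  | empty => exact ⟨fun _ => 0, by simp, by simp⟩
  | insert q P hq ih =>
    set u : ℕ → ℤ → ℝ := fun p j => (∑ x ∈ A p, w p x j) / #(A p) with hu
    have hAq := hA q (mem_insert_self q P)
    have hcard : (0 : ℝ) < #(A q) := by exact_mod_cast hAq.card_pos
    obtain ⟨x, hx, hxle⟩ : ∃ x ∈ A q, ∑ j ∈ S, a j * w q x j * ∏ p ∈ P, u p j ≤
        ∑ j ∈ S, a j * ∏ p ∈ insert q P, u p j := by
      apply exists_le_of_sum_le hAq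
      rw [sum_const, nsmul_eq_mul, sum_comm, mul_sum]
      apply le_of_eq
      apply sum_congr rfl
      intro j _
      rw [prod_insert hq]
      have : ∑ x ∈ A q, w q x j = #(A q) * u q j := by
        simp only [hu]; field_simp
      calc ∑ x ∈ A q, a j * w q x j * ∏ p ∈ P, u p j
          = a j * (∑ x ∈ A q, w q x j) * ∏ p ∈ P, u p j := by
            rw [mul_sum, sum_mul]
        _ = _ := by rw [this]; ring
    obtain ⟨b, hb, hble⟩ := ih (fun p hp => hA p (mem_insert_of_mem hp))
      (fun j => a j * w q x j) (fun j => mul_nonneg (ha j) (hw q x j))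
    refine ⟨Function.update b q x, ?_, ?_⟩
    · intro p hp
      rw [mem_insert] at hp
      rcases hp with rfl | hp
      · rw [Function.update_self]; exact hx
      · rw [Function.update_of_ne (by rintro rfl; exact hq hp)]; exact hb p hp
    · refine le_trans (le_of_eq ?_) (hble.trans hxle)
      apply sum_congr rfl
      intro j _
      rw [prod_insert hq, Function.update_self, mul_assoc]
      congr 2
      apply prod_congr rfl
      intro p hp
      rw [Function.update_of_ne (by rintro rfl; exact hq hp)]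

/-- The weight of the prime `p` for the residue `b` and the shift `j`. -/
noncomputable def wt (c p b : ℕ) (j : ℤ) : ℝ := if (p : ℤ) ∣ c * b + j then 1 / p else 1

lemma wt_nonneg (c p b : ℕ) (j : ℤ) : 0 ≤ wt c p b j := by
  unfold wt; split_ifs <;> positivity

lemma wt_le_one (c p b : ℕ) (j : ℤ) : wt c p b j ≤ 1 := by
  unfold wt
  split_ifs
  · rcases Nat.eq_zero_or_pos p with h | h
    · simp [h]
    · rw [div_le_one (by positivity)]; exact_mod_cast h
  · exact le_rfl

lemma wt_congr (c p b b' : ℕ) (j : ℤ) (h : b ≡ b' [MOD p]) : wt c p b j = wt c p b' j := by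
  have h1 : (p : ℤ) ∣ c * b + j ↔ (p : ℤ) ∣ c * b' + j := by
    have h2 : (p : ℤ) ∣ (b' : ℤ) - b := (Nat.modEq_iff_dvd).1 h
    have h3 : (p : ℤ) ∣ c * b' + j - (c * b + j) := by
      have : (c : ℤ) * b' + j - (c * b + j) = c * (b' - b) := by ring
      rw [this]; exact Dvd.dvd.mul_left h2 _
    constructor
    · intro h4; have := dvd_add h3 h4; rwa [sub_add_cancel] at this
    · intro h4; have := dvd_sub h4 h3; rwa [sub_sub_cancel] at this
  unfold wt
  simp only [h1]

/-- The admissible residues. -/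
def AA {K : ℕ} (h : Fin K → ℕ) (p : ℕ) : Finset ℕ := (range p).filter fun a => ∀ i, ¬ p ∣ a + h i

/-- The averaged weight. -/
noncomputable def uu {K : ℕ} (h : Fin K → ℕ) (c p : ℕ) (j : ℤ) : ℝ :=
  (∑ x ∈ AA h p, wt c p x j) / #(AA h p)

lemma uu_nonneg {K : ℕ} (h : Fin K → ℕ) (c p : ℕ) (j : ℤ) : 0 ≤ uu h c p j :=
  div_nonneg (sum_nonneg fun _ _ => wt_nonneg _ _ _ _) (by positivity)

lemma uu_le_one {K : ℕ} (h : Fin K → ℕ) (c p : ℕ) (j : ℤ) : uu h c p j ≤ 1 := by
  unfold uu
  apply div_le_one_of_le₀ _ (by positivity)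
  calc _ ≤ ∑ x ∈ AA h p, (1 : ℝ) := sum_le_sum fun x _ => wt_le_one _ _ _ _
    _ = _ := by simp

lemma uu_le {K : ℕ} (h : Fin K → ℕ) (c p : ℕ) (j : ℤ) (hp : p.Prime) (hc : ¬ p ∣ c)
    (hj : ∀ i, ¬ (p : ℤ) ∣ j - c * h i) : uu h c p j ≤ 1 - 1 / p + 1 / (p : ℝ) ^ 2 := by
  have := Fact.mk hp
  have hc' : (c : ZMod p) ≠ 0 := by
    rw [Ne, ZMod.natCast_eq_zero_iff]; exact hc
  set x₀ := (-(j : ZMod p) / c).val with hx₀
  have hx₀lt : x₀ < p := ZMod.val_lt _
  have hx₀' : (x₀ : ZMod p) = -(j : ZMod p) / c := by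
    rw [hx₀, ZMod.natCast_val, ZMod.cast_id', id]
  have h1 : (p : ℤ) ∣ c * x₀ + j := by
    rw [← ZMod.intCast_zmod_eq_zero_iff_dvd]
    push_cast
    rw [hx₀']
    field_simp
    ring
  have hmem : x₀ ∈ AA h p := by
    rw [AA, mem_filter, mem_range]
    refine ⟨hx₀lt, fun i hi => hj i ?_⟩
    have h2 : (p : ℤ) ∣ c * (x₀ + h i) := by
      apply Dvd.dvd.mul_left
      exact_mod_cast hi
    have h3 := dvd_sub h1 h2
    have : (c : ℤ) * x₀ + j - c * (x₀ + h i) = j - c * h i := by ring
    rwa [this] at h3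
  have hcard : 0 < #(AA h p) := card_pos.2 ⟨x₀, hmem⟩
  have hcard' : (#(AA h p) : ℝ) ≤ p := by
    have : #(AA h p) ≤ p := by
      calc _ ≤ #(range p) := card_le_card (filter_subset _ _)
        _ = p := card_range p
    exact_mod_cast this
  have hp1 : (1 : ℝ) < p := by exact_mod_cast hp.one_lt
  have hsum : ∑ x ∈ AA h p, wt c p x j ≤ #(AA h p) - (1 - 1 / p) := by
    rw [← sum_erase_add _ _ hmem]
    have h4 : wt c p x₀ j = 1 / p := by unfold wt; rw [if_pos h1]
    rw [h4]
    have h5 : ∑ x ∈ (AA h p).erase x₀, wt c p x j ≤ ∑ x ∈ (AA h p).erase x₀, (1 : ℝ) :=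
      sum_le_sum fun x _ => wt_le_one _ _ _ _
    rw [sum_const, nsmul_eq_mul, card_erase_of_mem hmem, Nat.cast_sub (by omega)] at h5
    push_cast at h5
    linarith
  unfold uu
  have hcpos : (0 : ℝ) < #(AA h p) := by exact_mod_cast hcard
  calc (∑ x ∈ AA h p, wt c p x j) / #(AA h p) ≤ (#(AA h p) - (1 - 1 / p)) / #(AA h p) :=
        div_le_div_of_nonneg_right hsum hcpos.le
    _ = 1 - (1 - 1 / p) / #(AA h p) := by field_simp
    _ ≤ 1 - (1 - 1 / p) / p := by
        have : (0 : ℝ) ≤ 1 - 1 / p := by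
          have : (1 : ℝ) / p < 1 := by rw [div_lt_one (by linarith)]; exact hp1
          linarith
        have := div_le_div_of_nonneg_left this hcpos hcard'
        linarith
    _ = _ := by field_simp; ring

/-- The combined averaging statement. -/
lemma exists_v {K : ℕ} (h : Fin K → ℕ) (c : ℕ) (S : Finset ℤ) (P M : Finset ℕ)
    (hP : ∀ p ∈ P, p.Prime) (hM : ∀ p ∈ M, p.Prime) (hd : Disjoint P M)
    (hadm : ∀ p ∈ P, ∃ a : ℕ, ∀ i, ¬ p ∣ a + h i)
    (hMh : ∀ p ∈ M, ∀ i, ¬ p ∣ h i) :
    ∃ v : ℕ, (∀ i, Nat.Coprime (v + h i) (∏ p ∈ P ∪ M, p)) ∧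
      ∑ j ∈ S, (1 : ℝ) / (Int.gcd (c * v + j) (∏ p ∈ P ∪ M, p : ℕ)) ≤
        ∑ j ∈ S, (∏ p ∈ M, wt c p 0 j) * ∏ p ∈ P, uu h c p j := by
  have hA : ∀ p ∈ P, (AA h p).Nonempty := by
    intro p hp
    obtain ⟨a, ha⟩ := hadm p hp
    refine ⟨a % p, ?_⟩
    rw [AA, mem_filter, mem_range]
    refine ⟨Nat.mod_lt _ (hP p hp).pos, fun i hi => ha i ?_⟩
    have h1 : a % p + h i ≡ a + h i [MOD p] := Nat.ModEq.add_right _ (Nat.mod_modEq a p)
    exact (h1.dvd_iff (dvd_refl p)).1 hi
  obtain ⟨b, hb, hble⟩ := avg S (AA h) (wt c) (fun p b j => wt_nonneg c p b j) P hA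
    (fun j => ∏ p ∈ M, wt c p 0 j) (fun j => prod_nonneg fun p _ => wt_nonneg _ _ _ _)
  classical
  obtain ⟨v, hv⟩ := Nat.chineseRemainderOfFinset (fun p => if p ∈ P then b p else 0) (fun p => p)
    (P ∪ M) (by
      intro p hp
      rw [mem_union] at hp
      rcases hp with hp | hp
      · exact (hP p hp).ne_zero
      · exact (hM p hp).ne_zero) (by
      intro p hp q hq hpq
      have hp' : p.Prime := by
        rw [mem_coe, mem_union] at hp
        rcases hp with hp | hp
        · exact hP p hp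
        · exact hM p hp
      have hq' : q.Prime := by
        rw [mem_coe, mem_union] at hq
        rcases hq with hq | hq
        · exact hP q hq
        · exact hM q hq
      exact (Nat.coprime_primes hp' hq').2 hpq)
  have hvP : ∀ p ∈ P, v ≡ b p [MOD p] := by
    intro p hp
    have := hv p (mem_union_left _ hp)
    simpa [hp] using this
  have hvM : ∀ p ∈ M, v ≡ 0 [MOD p] := by
    intro p hp
    have := hv p (mem_union_right _ hp)
    have hp' : p ∉ P := fun h => (disjoint_left.1 hd) h hp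
    simpa [hp'] using this
  refine ⟨v, ?_, ?_⟩
  · intro i
    apply Nat.Coprime.prod_right
    intro p hp
    rw [mem_union] at hp
    rcases hp with hp | hp
    · rw [Nat.coprime_comm, (hP p hp).coprime_iff_not_dvd]
      intro hdv
      have h1 : v + h i ≡ b p + h i [MOD p] := Nat.ModEq.add_right _ (hvP p hp)
      have h2 := (h1.dvd_iff (dvd_refl p)).1 hdv
      have h3 := hb p hp
      rw [AA, mem_filter] at h3
      exact h3.2 i h2
    · rw [Nat.coprime_comm, (hM p hp).coprime_iff_not_dvd]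
      intro hdv
      have h1 : v + h i ≡ 0 + h i [MOD p] := Nat.ModEq.add_right _ (hvM p hp)
      have h2 := (h1.dvd_iff (dvd_refl p)).1 hdv
      rw [zero_add] at h2
      exact hMh p hp i h2
  · refine le_trans ?_ hble
    apply sum_le_sum
    intro j _
    have h1 : (∏ p ∈ M, wt c p 0 j) * ∏ p ∈ P, wt c p (b p) j = ∏ p ∈ P ∪ M, wt c p v j := by
      rw [prod_union hd, mul_comm]
      congr 1
      · apply prod_congr rfl
        intro p hp
        exact (wt_congr c p v (b p) j (hvP p hp)).symm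
      · apply prod_congr rfl
        intro p hp
        exact (wt_congr c p v 0 j (hvM p hp)).symm
    rw [h1]
    have hprime : ∀ p ∈ P ∪ M, p.Prime := by
      intro p hp
      rw [mem_union] at hp
      rcases hp with hp | hp
      · exact hP p hp
      · exact hM p hp
    -- the product of the primes dividing `c v + j` divides the gcd
    have h2 : ∏ p ∈ P ∪ M, wt c p v j =
        1 / ((∏ p ∈ (P ∪ M).filter (fun p : ℕ => (p : ℤ) ∣ c * v + j), p : ℕ) : ℝ) := by
      unfold wt
      rw [prod_ite, prod_const_one, mul_one]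
      push_cast
      rw [one_div, ← prod_inv_distrib]
      simp only [one_div]
    rw [h2]
    apply one_div_le_one_div_of_le
    · have : 0 < ∏ p ∈ (P ∪ M).filter (fun p : ℕ => (p : ℤ) ∣ c * v + j), p := by
        apply prod_pos
        intro p hp
        exact (hprime p (mem_filter.1 hp).1).pos
      exact_mod_cast this
    · have h3 : ∏ p ∈ (P ∪ M).filter (fun p : ℕ => (p : ℤ) ∣ c * v + j), p ∣
          Int.gcd (c * v + j) (∏ p ∈ P ∪ M, p : ℕ) := by
        rw [Int.gcd_eq_natAbs, Int.natAbs_natCast]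
        apply Nat.dvd_gcd
        · apply Finset.prod_primes_dvd
          · intro p hp
            exact (hprime p (mem_filter.1 hp).1).prime
          · intro p hp
            exact Int.natCast_dvd.1 (mem_filter.1 hp).2
        · exact prod_dvd_prod_of_subset _ _ _ (filter_subset _ _)
      have hpos : 0 < Int.gcd (c * v + j) (∏ p ∈ P ∪ M, p : ℕ) := by
        apply Int.gcd_pos_of_ne_zero_right
        have : (∏ p ∈ P ∪ M, p) ≠ 0 := by
          apply prod_ne_zero_iff.2
          intro p hp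
          exact (hprime p hp).ne_zero
        exact_mod_cast this
      exact_mod_cast Nat.le_of_dvd hpos h3

end Pool.Agent.Helper7.Cover
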