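import Mathlib

/-!
Elementary prime number estimates (Chebyshev type), used for the Erdos-Rankin covering.
-/

open Finset

namespace Pool.Agent.Helper7.Cover

lemma log_four_le : 2 * Real.log 4 ≤ 3 := by
  have h : Real.log 4 = 2 * Real.log 2 := by
    rw [show (4 : ℝ) = 2 ^ 2 by norm_num, Real.log_pow]; norm_num
  have := Real.log_two_lt_d9
  linarith

/-- Sum of the inverses of the primes in a dyadic interval. -/
lemma sum_inv_dyadic (a : ℕ) (ha : 2 ≤ a) :
    ∑ p ∈ (Ioc a (2 * a)).filter Nat.Prime, (1 : ℝ) / p ≤ 3 / Real.log a := by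
  have ha' : (2 : ℝ) ≤ a := by exact_mod_cast ha
  have hlog : 0 < Real.log a := Real.log_pos (by linarith)
  set S := (Ioc a (2 * a)).filter Nat.Prime with hS
  have h1 : (#S : ℝ) * Real.log a ≤ Real.log 4 * (2 * a) := by
    calc (#S : ℝ) * Real.log a = ∑ p ∈ S, Real.log a := by rw [sum_const, nsmul_eq_mul]
      _ ≤ ∑ p ∈ S, Real.log p := by
          apply sum_le_sum
          intro p hp
          rw [hS, mem_filter, mem_Ioc] at hp
          apply Real.log_le_log (by linarith)
          exact_mod_cast hp.1.1.le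
      _ ≤ Chebyshev.theta ((2 * a : ℕ) : ℝ) := by
          rw [Chebyshev.theta, Nat.floor_natCast]
          apply sum_le_sum_of_subset_of_nonneg
          · intro p hp
            rw [hS, mem_filter, mem_Ioc] at hp
            rw [mem_filter, mem_Ioc]
            exact ⟨⟨by omega, hp.1.2⟩, hp.2⟩
          · intro p hp _
            rw [mem_filter] at hp
            exact Real.log_nonneg (by exact_mod_cast hp.2.one_lt.le)
      _ ≤ Real.log 4 * ((2 * a : ℕ) : ℝ) := Chebyshev.theta_le_log4_mul_x (by positivity)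
      _ = _ := by push_cast; ring
  have h2 : ∑ p ∈ S, (1 : ℝ) / p ≤ #S / a := by
    calc ∑ p ∈ S, (1 : ℝ) / p ≤ ∑ p ∈ S, (1 : ℝ) / a := by
          apply sum_le_sum
          intro p hp
          rw [hS, mem_filter, mem_Ioc] at hp
          apply one_div_le_one_div_of_le (by linarith)
          exact_mod_cast hp.1.1.le
      _ = _ := by rw [sum_const, nsmul_eq_mul]; ring
  refine h2.trans ?_
  rw [div_le_div_iff₀ (by linarith) hlog]
  have := log_four_le
  nlinarith

/-- Sum of the inverses of the primes in `(a, 2 ^ k * a]`. -/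
lemma sum_inv_pow (a : ℕ) (ha : 2 ≤ a) (k : ℕ) :
    ∑ p ∈ (Ioc a (2 ^ k * a)).filter Nat.Prime, (1 : ℝ) / p ≤ 3 * k / Real.log a := by
  have ha' : (2 : ℝ) ≤ a := by exact_mod_cast ha
  have hlog : 0 < Real.log a := Real.log_pos (by linarith)
  induction k with
  | zero => simp
  | succ k ih =>
    have hsplit : Ioc a (2 ^ (k + 1) * a) = Ioc a (2 ^ k * a) ∪ Ioc (2 ^ k * a) (2 * (2 ^ k * a)) := by
      rw [Ioc_union_Ioc_eq_Ioc]
      · congr 1; ring
      · nlinarith [Nat.one_le_two_pow (n := k)]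
      · omega
    rw [hsplit, filter_union]
    have hle : 2 ≤ 2 ^ k * a := by nlinarith [Nat.one_le_two_pow (n := k)]
    have h1 := sum_inv_dyadic (2 ^ k * a) hle
    have h2 : 3 / Real.log ((2 ^ k * a : ℕ) : ℝ) ≤ 3 / Real.log a := by
      apply div_le_div_of_nonneg_left (by norm_num) hlog
      apply Real.log_le_log (by linarith)
      exact_mod_cast (by nlinarith [Nat.one_le_two_pow (n := k)] : a ≤ 2 ^ k * a)
    calc _ ≤ ∑ p ∈ (Ioc a (2 ^ k * a)).filter Nat.Prime, (1 : ℝ) / p +
          ∑ p ∈ (Ioc (2 ^ k * a) (2 * (2 ^ k * a))).filter Nat.Prime, (1 : ℝ) / p := by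
          rw [← sum_union_inter]
          have : 0 ≤ ∑ p ∈ (Ioc a (2 ^ k * a)).filter Nat.Prime ∩
            (Ioc (2 ^ k * a) (2 * (2 ^ k * a))).filter Nat.Prime, (1 : ℝ) / p :=
            sum_nonneg fun _ _ => by positivity
          linarith
      _ ≤ 3 * k / Real.log a + 3 / Real.log a := by linarith
      _ = _ := by push_cast; ring

/-- Sum of the inverses of the primes in `(a, b]`. -/
lemma sum_inv_Ioc (a b : ℕ) (ha : 2 ≤ a) (hab : a ≤ b) :
    ∑ p ∈ (Ioc a b).filter Nat.Prime, (1 : ℝ) / p ≤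
      (5 * Real.log (b / a) + 3) / Real.log a := by
  have ha' : (2 : ℝ) ≤ a := by exact_mod_cast ha
  have hab' : (a : ℝ) ≤ b := by exact_mod_cast hab
  have hlog : 0 < Real.log a := Real.log_pos (by linarith)
  have hba : 1 ≤ (b : ℝ) / a := by rw [le_div_iff₀ (by linarith)]; linarith
  have hlog0 : 0 ≤ Real.log (b / a) := Real.log_nonneg hba
  set k := ⌈Real.log (b / a) / Real.log 2⌉₊ with hk
  have hl2 : 0 < Real.log 2 := Real.log_pos (by norm_num)
  have hk1 : Real.log (b / a) ≤ k * Real.log 2 := by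
    rw [← div_le_iff₀ hl2]; exact Nat.le_ceil _
  have hk2 : (k : ℝ) < Real.log (b / a) / Real.log 2 + 1 := Nat.ceil_lt_add_one (by positivity)
  have hb : b ≤ 2 ^ k * a := by
    have h3 : (b : ℝ) / a ≤ 2 ^ k := by
      rw [← Real.log_le_log_iff (by linarith) (by positivity), Real.log_pow]
      exact hk1
    rw [div_le_iff₀ (by linarith)] at h3
    exact_mod_cast h3
  calc _ ≤ ∑ p ∈ (Ioc a (2 ^ k * a)).filter Nat.Prime, (1 : ℝ) / p := by
        apply sum_le_sum_of_subset_of_nonneg
        · intro p hp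
          rw [mem_filter, mem_Ioc] at hp ⊢
          exact ⟨⟨hp.1.1, hp.1.2.trans hb⟩, hp.2⟩
        · intro _ _ _; positivity
    _ ≤ 3 * k / Real.log a := sum_inv_pow a ha k
    _ ≤ _ := by
        apply div_le_div_of_nonneg_right _ hlog.le
        have h4 : Real.log (b / a) / Real.log 2 ≤ 5 / 3 * Real.log (b / a) := by
          rw [div_le_iff₀ hl2]
          have := Real.log_two_gt_d9
          nlinarith
        linarith

/-- Sum of the inverses of the primes up to `2 ^ k`. -/
lemma sum_inv_two_pow (k : ℕ) (hk : 1 ≤ k) :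
    ∑ p ∈ (Icc 1 (2 ^ k)).filter Nat.Prime, (1 : ℝ) / p ≤ 5 + 5 * Real.log k := by
  have key : ∀ k : ℕ, 1 ≤ k → ∑ p ∈ (Icc 1 (2 ^ k)).filter Nat.Prime, (1 : ℝ) / p ≤
      1 / 2 + 5 * (harmonic (k - 1) : ℝ) - (5 - 3 / Real.log 2) * (harmonic (k - 1) : ℝ) := by
    intro k hk
    induction k, hk using Nat.le_induction with
    | base =>
      have : (Icc 1 (2 ^ 1)).filter Nat.Prime = {2} := by decide
      rw [this]; simp
    | succ k hk ih =>
      have hsplit : Icc 1 (2 ^ (k + 1)) = Icc 1 (2 ^ k) ∪ Ioc (2 ^ k) (2 * 2 ^ k) := by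
        ext x
        simp only [mem_union, mem_Icc, mem_Ioc, pow_succ]
        have := Nat.one_le_two_pow (n := k)
        omega
      rw [hsplit, filter_union]
      have h1 := sum_inv_dyadic (2 ^ k) (by
        calc 2 = 2 ^ 1 := rfl
          _ ≤ 2 ^ k := Nat.pow_le_pow_right (by norm_num) hk)
      have h2 : (harmonic (k + 1 - 1) : ℝ) = harmonic (k - 1) + 1 / k := by
        obtain ⟨m, rfl⟩ : ∃ m, k = m + 1 := ⟨k - 1, by omega⟩
        simp only [Nat.add_sub_cancel]
        rw [harmonic_succ]; push_cast; simp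
      have h3 : 3 / Real.log ((2 ^ k : ℕ) : ℝ) = 3 / Real.log 2 * (1 / k) := by
        push_cast
        rw [Real.log_pow]
        have : (k : ℝ) ≠ 0 := by positivity
        have hl2 : Real.log 2 ≠ 0 := by positivity
        field_simp
      rw [h3] at h1
      calc _ ≤ ∑ p ∈ (Icc 1 (2 ^ k)).filter Nat.Prime, (1 : ℝ) / p +
            ∑ p ∈ (Ioc (2 ^ k) (2 * 2 ^ k)).filter Nat.Prime, (1 : ℝ) / p := by
            rw [← sum_union_inter]
            have : 0 ≤ ∑ p ∈ (Icc 1 (2 ^ k)).filter Nat.Prime ∩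
              (Ioc (2 ^ k) (2 * 2 ^ k)).filter Nat.Prime, (1 : ℝ) / p :=
              sum_nonneg fun _ _ => by positivity
            linarith
        _ ≤ _ := by
            rw [h2]
            nlinarith
  have h0 : (0 : ℝ) ≤ harmonic (k - 1) := by
    have : (0 : ℚ) ≤ harmonic (k - 1) := by
      unfold harmonic; exact sum_nonneg fun _ _ => by positivity
    exact_mod_cast this
  have h1 : 3 / Real.log 2 ≤ 9 / 2 := by
    rw [div_le_iff₀ (Real.log_pos (by norm_num))]
    have := Real.log_two_gt_d9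
    linarith
  have h2 : (harmonic (k - 1) : ℝ) ≤ 1 + Real.log k := by
    rcases Nat.eq_or_lt_of_le hk with h | h
    · rw [← h]; simp
    · refine (harmonic_le_one_add_log (k - 1)).trans ?_
      have : Real.log ((k - 1 : ℕ) : ℝ) ≤ Real.log k := by
        apply Real.log_le_log
        · exact_mod_cast (by omega : 0 < k - 1)
        · exact_mod_cast (by omega : k - 1 ≤ k)
      linarith
  have h3 : 0 ≤ Real.log k := Real.log_nonneg (by exact_mod_cast hk)
  have := key k hk
  nlinarith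

/-- Sum of the inverses of the primes up to `n`, given `n ≤ 2 ^ k`. -/
lemma sum_inv_le (n k : ℕ) (hk : 1 ≤ k) (hn : n ≤ 2 ^ k) :
    ∑ p ∈ (Icc 1 n).filter Nat.Prime, (1 : ℝ) / p ≤ 5 + 5 * Real.log k := by
  refine le_trans ?_ (sum_inv_two_pow k hk)
  apply sum_le_sum_of_subset_of_nonneg
  · intro p hp
    rw [mem_filter, mem_Icc] at hp ⊢
    exact ⟨⟨hp.1.1, hp.1.2.trans hn⟩, hp.2⟩
  · intro _ _ _; positivity

/-- Euler products bound finite sums over integers composed of primes in `s`. -/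
lemma euler_bound (f : ℕ →* ℝ) (hf : ∀ n, 0 ≤ f n) (h1 : ∀ {p : ℕ}, p.Prime → f p < 1)
    (s F : Finset ℕ) (hF : ∀ n ∈ F, n ∈ Nat.factoredNumbers s) :
    ∑ n ∈ F, f n ≤ ∏ p ∈ s with p.Prime, (1 - f p)⁻¹ := by
  have h := EulerProduct.summable_and_hasSum_factoredNumbers_prod_filter_prime_geometric
    (f := f) (fun {p} hp => by rw [Real.norm_of_nonneg (hf p)]; exact h1 hp) s
  classical
  have h2 : ∑ n ∈ F, f n = ∑ n ∈ F.subtype (· ∈ Nat.factoredNumbers s), f n := by
    rw [sum_subtype_of_mem f hF]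
  rw [h2]
  exact sum_le_hasSum _ (fun n _ => hf n) h.2

/-- `n ↦ n ^ (-σ)` as a monoid homomorphism. -/
noncomputable def rpowHom (σ : ℝ) : ℕ →* ℝ where
  toFun n := (n : ℝ) ^ (-σ)
  map_one' := by simp
  map_mul' a b := by
    push_cast
    exact Real.mul_rpow (by positivity) (by positivity)

lemma rpowHom_apply (σ : ℝ) (n : ℕ) : rpowHom σ n = (n : ℝ) ^ (-σ) := rfl

/-- Upper bound of Mertens type. -/
lemma prod_one_sub_inv_le (n : ℕ) (hn : 1 ≤ n) :
    ∏ p ∈ (Icc 1 n).filter Nat.Prime, (1 - 1 / (p : ℝ)) ≤ 1 / Real.log (n + 1) := by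
  have h := euler_bound (rpowHom 1) (fun n => by rw [rpowHom_apply]; positivity)
    (fun {p} hp => by
      rw [rpowHom_apply, Real.rpow_neg_one]
      exact inv_lt_one_of_one_lt₀ (by exact_mod_cast hp.one_lt)) (Icc 1 n) (Icc 1 n) (by
        intro m hm
        rw [mem_Icc] at hm
        rw [Nat.mem_factoredNumbers']
        intro p hp hpm
        rw [mem_Icc]
        exact ⟨hp.one_lt.le, (Nat.le_of_dvd hm.1 hpm).trans hm.2⟩)
  have h2 : Real.log (n + 1) ≤ ∑ m ∈ Icc 1 n, rpowHom 1 m := by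
    have := log_add_one_le_harmonic n
    rw [harmonic_eq_sum_Icc] at this
    push_cast at this
    refine this.trans (le_of_eq ?_)
    apply sum_congr rfl
    intro m _
    rw [rpowHom_apply, Real.rpow_neg_one]
  have hpos : 0 < Real.log (n + 1) := Real.log_pos (by
    have : (1 : ℝ) ≤ n := by exact_mod_cast hn
    linarith)
  have h3 : ∏ p ∈ (Icc 1 n).filter Nat.Prime, (1 - rpowHom 1 p)⁻¹ =
      (∏ p ∈ (Icc 1 n).filter Nat.Prime, (1 - 1 / (p : ℝ)))⁻¹ := by
    rw [← prod_inv_distrib]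
    apply prod_congr rfl
    intro p _
    rw [rpowHom_apply, Real.rpow_neg_one, one_div]
  rw [h3] at h
  have h4 := h2.trans h
  have h5 : 0 < ∏ p ∈ (Icc 1 n).filter Nat.Prime, (1 - 1 / (p : ℝ)) := by
    apply prod_pos
    intro p hp
    rw [mem_filter] at hp
    have : (1 : ℝ) / p < 1 := by
      rw [div_lt_one (by exact_mod_cast hp.2.pos)]
      exact_mod_cast hp.2.one_lt
    linarith
  rw [le_div_iff₀ hpos]
  rw [← one_div, le_div_iff₀ h5] at h4
  linarith

end Pool.Agent.Helper7.Cover
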