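import Mathlib
import Pool.Agent.Helper7.Cover.Primes
import Pool.Agent.Helper7.Cover.Avg

/-!
Rankin's bound and the count of the integers without prime factors in `(z, y]`.
-/

open Finset

namespace Pool.Agent.Helper7.Cover

/-- Rankin's bound. -/
lemma rankin (N : ℕ) (s : Finset ℕ) (σ : ℝ) (hσ : 0 < σ) :
    (#((Icc 1 N).filter (fun n => n ∈ Nat.factoredNumbers s)) : ℝ) ≤
      (N : ℝ) ^ σ * ∏ p ∈ s with p.Prime, (1 - (p : ℝ) ^ (-σ))⁻¹ := by
  have h := euler_bound (rpowHom σ) (fun n => by rw [rpowHom_apply]; positivity)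
    (fun {p} hp => by
      rw [rpowHom_apply]
      apply Real.rpow_lt_one_of_one_lt_of_neg
      · exact_mod_cast hp.one_lt
      · linarith) s ((Icc 1 N).filter (fun n => n ∈ Nat.factoredNumbers s)) (by
        intro n hn
        exact (mem_filter.1 hn).2)
  refine le_trans ?_ (mul_le_mul_of_nonneg_left h (by positivity))
  rw [mul_sum, card_eq_sum_ones, Nat.cast_sum]
  apply sum_le_sum
  intro n hn
  rw [mem_filter, mem_Icc] at hn
  rw [rpowHom_apply, Nat.cast_one]
  have hn0 : (0 : ℝ) < n := by exact_mod_cast hn.1.1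
  have hnN : (n : ℝ) ≤ N := by exact_mod_cast hn.1.2
  rw [Real.rpow_neg hn0.le, ← div_eq_mul_inv, ← Real.div_rpow (by positivity) hn0.le]
  apply Real.one_le_rpow _ hσ.le
  rw [le_div_iff₀ hn0]; linarith

lemma inv_one_sub_le {x : ℝ} (h0 : 0 ≤ x) (h1 : x ≤ 3 / 4) : (1 - x)⁻¹ ≤ Real.exp (4 * x) := by
  have h2 : (1 - x)⁻¹ ≤ 1 + 4 * x := by
    rw [inv_le_comm₀ (by linarith) (by linarith), inv_le_iff_one_le_mul₀ (by linarith)]
    nlinarith
  have := Real.add_one_le_exp (4 * x)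
  linarith

lemma rpow_neg_le {p : ℕ} (hp : p.Prime) {σ : ℝ} (hσ : 1 / 2 ≤ σ) : (p : ℝ) ^ (-σ) ≤ 3 / 4 := by
  have hp2 : (2 : ℝ) ≤ p := by exact_mod_cast hp.two_le
  calc (p : ℝ) ^ (-σ) ≤ (p : ℝ) ^ (-(1 / 2) : ℝ) :=
        Real.rpow_le_rpow_of_exponent_le (by linarith) (by linarith)
    _ ≤ (2 : ℝ) ^ (-(1 / 2) : ℝ) := by
        apply Real.rpow_le_rpow_of_nonpos (by norm_num) hp2 (by norm_num)
    _ ≤ 3 / 4 := by
        rw [Real.rpow_neg (by norm_num), ← Real.sqrt_eq_rpow, inv_le_comm₀ (by positivity) (by norm_num)]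
        apply Real.le_sqrt_of_sq_le
        norm_num

lemma one_le_prodR {ι : Type*} {S : Finset ι} {f : ι → ℝ} (h : ∀ i ∈ S, 1 ≤ f i) :
    1 ≤ ∏ i ∈ S, f i := by
  calc (1 : ℝ) = ∏ i ∈ S, (1 : ℝ) := by rw [prod_const_one]
    _ ≤ _ := prod_le_prod (fun _ _ => zero_le_one) h

lemma prod_subset_le {ι : Type*} [DecidableEq ι] {S T : Finset ι} (hST : S ⊆ T) {f : ι → ℝ}
    (h0 : ∀ i ∈ S, 0 ≤ f i) (h : ∀ i ∈ T, i ∉ S → 1 ≤ f i) :
    ∏ i ∈ S, f i ≤ ∏ i ∈ T, f i := by
  rw [← prod_sdiff hST]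
  have h1 : 1 ≤ ∏ i ∈ T \ S, f i := one_le_prodR fun i hi => by
    rw [mem_sdiff] at hi; exact h i hi.1 hi.2
  have h2 : 0 ≤ ∏ i ∈ S, f i := prod_nonneg h0
  nlinarith

lemma prod_factor_le (z k pe : ℕ) (σ : ℝ) (hσ : 1 / 2 ≤ σ) (hσ1 : σ ≤ 1)
    (hz : (z : ℝ) ^ (1 - σ) ≤ 3) (hk : 1 ≤ k) (hzk : z ≤ 2 ^ k) :
    ∏ p ∈ insert pe (Icc 1 z) with p.Prime, (1 - (p : ℝ) ^ (-σ))⁻¹ ≤
      4 * Real.exp (12 * (5 + 5 * Real.log k)) := by
  have hnn : ∀ p : ℕ, p.Prime → 1 ≤ (1 - (p : ℝ) ^ (-σ))⁻¹ := by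
    intro p hp
    have h1 := rpow_neg_le hp hσ
    have h2 : 0 ≤ (p : ℝ) ^ (-σ) := by positivity
    rw [one_le_inv₀ (by linarith)]; linarith
  have hsub : (insert pe (Icc 1 z)).filter Nat.Prime ⊆
      ({pe} : Finset ℕ).filter Nat.Prime ∪ (Icc 1 z).filter Nat.Prime := by
    intro p hp
    rw [mem_filter, mem_insert] at hp
    rw [mem_union, mem_filter, mem_filter, mem_singleton]
    tauto
  have h1 : ∏ p ∈ insert pe (Icc 1 z) with p.Prime, (1 - (p : ℝ) ^ (-σ))⁻¹ ≤
      (∏ p ∈ ({pe} : Finset ℕ).filter Nat.Prime, (1 - (p : ℝ) ^ (-σ))⁻¹) *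
        ∏ p ∈ (Icc 1 z).filter Nat.Prime, (1 - (p : ℝ) ^ (-σ))⁻¹ := by
    rw [← prod_union_inter]
    have h2 : 1 ≤ ∏ p ∈ ({pe} : Finset ℕ).filter Nat.Prime ∩ (Icc 1 z).filter Nat.Prime,
        (1 - (p : ℝ) ^ (-σ))⁻¹ := by
      apply one_le_prodR
      intro p hp
      exact hnn p (mem_filter.1 (mem_inter.1 hp).1).2
    have h3 : ∏ p ∈ insert pe (Icc 1 z) with p.Prime, (1 - (p : ℝ) ^ (-σ))⁻¹ ≤
        ∏ p ∈ ({pe} : Finset ℕ).filter Nat.Prime ∪ (Icc 1 z).filter Nat.Prime,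
          (1 - (p : ℝ) ^ (-σ))⁻¹ := by
      apply prod_subset_le hsub
      · intro p hp
        exact le_trans zero_le_one (hnn p (mem_filter.1 hp).2)
      · intro p hp _
        rw [mem_union, mem_filter, mem_filter] at hp
        rcases hp with hp | hp
        · exact hnn p hp.2
        · exact hnn p hp.2
    have h4 : 0 ≤ ∏ p ∈ ({pe} : Finset ℕ).filter Nat.Prime ∪ (Icc 1 z).filter Nat.Prime,
          (1 - (p : ℝ) ^ (-σ))⁻¹ := by
      apply prod_nonneg
      intro p hp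
      rw [mem_union, mem_filter, mem_filter] at hp
      rcases hp with hp | hp
      · exact le_trans zero_le_one (hnn p hp.2)
      · exact le_trans zero_le_one (hnn p hp.2)
    nlinarith
  refine h1.trans ?_
  have h5 : ∏ p ∈ ({pe} : Finset ℕ).filter Nat.Prime, (1 - (p : ℝ) ^ (-σ))⁻¹ ≤ 4 := by
    by_cases hpe : pe.Prime
    · rw [filter_singleton, if_pos hpe, prod_singleton]
      have h1 := rpow_neg_le hpe hσ
      rw [inv_le_comm₀ (by linarith) (by norm_num)]
      linarith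
    · rw [filter_singleton, if_neg hpe, prod_empty]; norm_num
  have h6 : ∏ p ∈ (Icc 1 z).filter Nat.Prime, (1 - (p : ℝ) ^ (-σ))⁻¹ ≤
      Real.exp (12 * (5 + 5 * Real.log k)) := by
    calc _ ≤ ∏ p ∈ (Icc 1 z).filter Nat.Prime, Real.exp (12 * (1 / (p : ℝ))) := by
          apply prod_le_prod
          · intro p hp
            exact le_trans zero_le_one (hnn p (mem_filter.1 hp).2)
          · intro p hp
            rw [mem_filter, mem_Icc] at hp
            have hp0 : (0 : ℝ) < p := by exact_mod_cast hp.2.pos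
            refine (inv_one_sub_le (by positivity) (rpow_neg_le hp.2 hσ)).trans ?_
            rw [Real.exp_le_exp]
            have h7 : (p : ℝ) ^ (-σ) = (p : ℝ) ^ (1 - σ) * (1 / p) := by
              rw [one_div, ← Real.rpow_neg_one, ← Real.rpow_add hp0]
              congr 1; ring
            have h8 : (p : ℝ) ^ (1 - σ) ≤ 3 := by
              refine le_trans (Real.rpow_le_rpow hp0.le ?_ (by linarith)) hz
              exact_mod_cast hp.1.2
            rw [h7]
            have : (0 : ℝ) < 1 / p := by positivity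
            nlinarith
      _ = Real.exp (12 * ∑ p ∈ (Icc 1 z).filter Nat.Prime, (1 / (p : ℝ))) := by
          rw [← Real.exp_sum, mul_sum]
      _ ≤ _ := by
          rw [Real.exp_le_exp]
          have := sum_inv_le z k hk hzk
          linarith
  apply mul_le_mul h5 h6 _ (by norm_num)
  apply prod_nonneg
  intro p hp
  exact le_trans zero_le_one (hnn p (mem_filter.1 hp).2)

/-- The primes in `(z, y]` different from `pe`. -/
def MM (z y pe : ℕ) : Finset ℕ := (Ioc z y).filter fun p => p.Prime ∧ p ≠ pe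

lemma count_mid (N z y pe : ℕ) :
    (#((Icc 1 N).filter (fun n => ∀ p ∈ MM z y pe, ¬ p ∣ n)) : ℝ) ≤
      #((Icc 1 N).filter (fun n => n ∈ Nat.factoredNumbers (insert pe (Icc 1 z)))) +
        N * ∑ p ∈ (Ioc y N).filter Nat.Prime, (1 : ℝ) / p := by
  have hsub : (Icc 1 N).filter (fun n => ∀ p ∈ MM z y pe, ¬ p ∣ n) ⊆
      ((Icc 1 N).filter (fun n => n ∈ Nat.factoredNumbers (insert pe (Icc 1 z)))) ∪
        ((Ioc y N).filter Nat.Prime).biUnion (fun p => (Ioc 0 N).filter (fun n => p ∣ n)) := by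
    intro n hn
    rw [mem_filter, mem_Icc] at hn
    rw [mem_union, mem_filter, mem_Icc, mem_biUnion]
    by_cases h : n ∈ Nat.factoredNumbers (insert pe (Icc 1 z))
    · left; exact ⟨hn.1, h⟩
    · right
      rw [Nat.mem_factoredNumbers'] at h
      push Not at h
      obtain ⟨p, hp, hpn, hps⟩ := h
      rw [mem_insert, mem_Icc, not_or] at hps
      have hple : p ≤ N := (Nat.le_of_dvd (by omega) hpn).trans hn.1.2
      have hpz : z < p := by
        by_contra hcon
        exact hps.2 ⟨hp.one_lt.le, by omega⟩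
      have hpy : y < p := by
        by_contra hcon
        refine hn.2 p ?_ hpn
        rw [MM, mem_filter, mem_Ioc]
        exact ⟨⟨hpz, by omega⟩, hp, hps.1⟩
      refine ⟨p, ?_, ?_⟩
      · rw [mem_filter, mem_Ioc]; exact ⟨⟨hpy, hple⟩, hp⟩
      · rw [mem_filter, mem_Ioc]; exact ⟨⟨by omega, hn.1.2⟩, hpn⟩
  have h1 := (card_le_card hsub).trans (card_union_le _ _)
  have h2 : #(((Ioc y N).filter Nat.Prime).biUnion (fun p => (Ioc 0 N).filter (fun n => p ∣ n))) ≤
      ∑ p ∈ (Ioc y N).filter Nat.Prime, N / p := by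
    refine card_biUnion_le.trans ?_
    apply sum_le_sum
    intro p _
    rw [Nat.Ioc_filter_dvd_card_eq_div]
  have h3 : ((∑ p ∈ (Ioc y N).filter Nat.Prime, N / p : ℕ) : ℝ) ≤
      N * ∑ p ∈ (Ioc y N).filter Nat.Prime, (1 : ℝ) / p := by
    rw [Nat.cast_sum, mul_sum]
    apply sum_le_sum
    intro p _
    refine Nat.cast_div_le.trans ?_
    rw [mul_one_div]
  have h4 : (#((Icc 1 N).filter (fun n => ∀ p ∈ MM z y pe, ¬ p ∣ n)) : ℝ) ≤
      #((Icc 1 N).filter (fun n => n ∈ Nat.factoredNumbers (insert pe (Icc 1 z)))) +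
      ((∑ p ∈ (Ioc y N).filter Nat.Prime, N / p : ℕ) : ℝ) := by
    exact_mod_cast h1.trans (Nat.add_le_add_left h2 _)
  linarith

lemma sum_mid (c N z y pe : ℕ) (hz : 1 ≤ z) :
    ∑ j ∈ Icc (-(N : ℤ)) N, ∏ p ∈ MM z y pe, wt c p 0 j ≤
      1 + 2 * (#((Icc 1 N).filter (fun n => ∀ p ∈ MM z y pe, ¬ p ∣ n)) : ℝ) + 2 * N / z := by
  have hz' : (1 : ℝ) ≤ z := by exact_mod_cast hz
  set M := MM z y pe with hM
  have hle1 : ∀ j, ∏ p ∈ M, wt c p 0 j ≤ 1 := fun j =>
    prod_le_one (fun p _ => wt_nonneg _ _ _ _) (fun p _ => wt_le_one _ _ _ _)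
  -- pointwise bound
  have hpt : ∀ j : ℤ, ∏ p ∈ M, wt c p 0 j ≤ (if j = 0 then 1 else 0) +
      (if j ≠ 0 ∧ ∀ p ∈ M, ¬ (p : ℤ) ∣ j then 1 else 0) + (if j ≠ 0 then 1 / (z : ℝ) else 0) := by
    intro j
    by_cases hj : j = 0
    · simp only [hj, if_true, ne_eq, not_true_eq_false, false_and, if_false, add_zero]
      exact hle1 0
    · by_cases hall : ∀ p ∈ M, ¬ (p : ℤ) ∣ j
      · rw [if_neg hj, if_pos ⟨hj, hall⟩, if_pos hj]
        have := hle1 j
        have : (0 : ℝ) ≤ 1 / z := by positivity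
        linarith [hle1 j]
      · rw [if_neg hj, if_neg (fun h => hall h.2), if_pos hj, zero_add, zero_add]
        push Not at hall
        obtain ⟨p, hp, hpj⟩ := hall
        have h1 : ∏ p ∈ M, wt c p 0 j ≤ wt c p 0 j := by
          rw [← mul_prod_erase M _ hp]
          apply mul_le_of_le_one_right (wt_nonneg _ _ _ _)
          exact prod_le_one (fun p _ => wt_nonneg _ _ _ _) (fun p _ => wt_le_one _ _ _ _)
        refine h1.trans ?_
        unfold wt
        have : (p : ℤ) ∣ c * ((0 : ℕ) : ℤ) + j := by simpa using hpj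
        rw [if_pos this]
        apply one_div_le_one_div_of_le (by linarith)
        rw [hM, MM, mem_filter, mem_Ioc] at hp
        exact_mod_cast hp.1.1.le
  calc _ ≤ ∑ j ∈ Icc (-(N : ℤ)) N, ((if j = 0 then 1 else 0) +
      (if j ≠ 0 ∧ ∀ p ∈ M, ¬ (p : ℤ) ∣ j then 1 else 0) + (if j ≠ 0 then 1 / (z : ℝ) else 0)) :=
        sum_le_sum fun j _ => hpt j
    _ = _ + _ + _ := by rw [sum_add_distrib, sum_add_distrib]
    _ ≤ _ := by
        apply add_le_add (add_le_add _ _) _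
        · rw [sum_ite_eq']; split_ifs <;> norm_num
        · rw [← sum_filter, sum_const, nsmul_eq_mul, mul_one]
          have hsub : (Icc (-(N : ℤ)) N).filter (fun j => j ≠ 0 ∧ ∀ p ∈ M, ¬ (p : ℤ) ∣ j) ⊆
              (((Icc 1 N).filter (fun n => ∀ p ∈ M, ¬ p ∣ n)).image (fun n : ℕ => (n : ℤ))) ∪
              (((Icc 1 N).filter (fun n => ∀ p ∈ M, ¬ p ∣ n)).image (fun n : ℕ => -(n : ℤ))) := by
            intro j hj
            rw [mem_filter, mem_Icc] at hj
            rw [mem_union, mem_image, mem_image]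
            have h1 : j.natAbs ∈ (Icc 1 N).filter (fun n => ∀ p ∈ M, ¬ p ∣ n) := by
              rw [mem_filter, mem_Icc]
              refine ⟨⟨by omega, by omega⟩, fun p hp hpj => hj.2.2 p hp ?_⟩
              exact Int.natCast_dvd.2 hpj
            rcases le_total 0 j with h | h
            · left; exact ⟨_, h1, by omega⟩
            · right; exact ⟨_, h1, by omega⟩
          have h2 := (card_le_card hsub).trans (card_union_le _ _)
          have h3 := card_image_le (s := (Icc 1 N).filter (fun n => ∀ p ∈ M, ¬ p ∣ n))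
            (f := fun n : ℕ => (n : ℤ))
          have h4 := card_image_le (s := (Icc 1 N).filter (fun n => ∀ p ∈ M, ¬ p ∣ n))
            (f := fun n : ℕ => -(n : ℤ))
          have h5 : #((Icc (-(N : ℤ)) N).filter (fun j => j ≠ 0 ∧ ∀ p ∈ M, ¬ (p : ℤ) ∣ j)) ≤
            2 * #((Icc 1 N).filter (fun n => ∀ p ∈ M, ¬ p ∣ n)) := by omega
          exact_mod_cast h5
        · rw [← sum_filter, sum_const, nsmul_eq_mul]
          have h1 : #((Icc (-(N : ℤ)) N).filter (fun j => j ≠ 0)) ≤ 2 * N := by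
            rw [filter_ne', card_erase_of_mem (by rw [mem_Icc]; omega), Int.card_Icc]
            omega
          have h2 : (#((Icc (-(N : ℤ)) N).filter (fun j => j ≠ 0)) : ℝ) ≤ 2 * N := by
            exact_mod_cast h1
          calc _ ≤ (2 * N : ℝ) * (1 / z) := mul_le_mul_of_nonneg_right h2 (by positivity)
            _ = _ := by ring

end Pool.Agent.Helper7.Cover
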