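import Mathlib
import Pool.Agent.Helper7.Cover.Smooth

/-!
The bound for the averaged product over the small primes.
-/

open Finset

namespace Pool.Agent.Helper7.Cover

/-- The local factor. -/
noncomputable def vv (p : ℕ) : ℝ := 1 - 1 / p + 1 / (p : ℝ) ^ 2

lemma vv_nonneg {p : ℕ} (hp : 2 ≤ p) : 0 ≤ vv p := by
  have hp' : (2 : ℝ) ≤ p := by exact_mod_cast hp
  have h1 : (1 : ℝ) / p ≤ 1 := by rw [div_le_one (by linarith)]; linarith
  have h2 : (0 : ℝ) ≤ 1 / (p : ℝ) ^ 2 := by positivity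
  unfold vv; linarith

lemma one_le_vv_mul {p : ℕ} (hp : 2 ≤ p) : 1 ≤ vv p * Real.exp (1 / p) := by
  have hp' : (2 : ℝ) ≤ p := by exact_mod_cast hp
  have h1 := Real.add_one_le_exp (1 / (p : ℝ))
  have h0 := vv_nonneg hp
  have h3 : 1 ≤ vv p * (1 / p + 1) := by
    have : vv p * (1 / p + 1) = 1 + (1 / (p : ℝ)) ^ 3 := by
      unfold vv; ring
    rw [this]
    have : (0 : ℝ) ≤ (1 / (p : ℝ)) ^ 3 := by positivity
    linarith
  exact h3.trans (mul_le_mul_of_nonneg_left h1 h0)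

lemma vv_le {p : ℕ} (hp : 2 ≤ p) :
    vv p ≤ (1 - 1 / p) * Real.exp (1 / ((p : ℝ) * (p - 1))) := by
  have hp' : (2 : ℝ) ≤ p := by exact_mod_cast hp
  have h1 := Real.add_one_le_exp (1 / ((p : ℝ) * (p - 1)))
  have h2 : (0 : ℝ) ≤ 1 - 1 / p := by
    have : (1 : ℝ) / p ≤ 1 := by rw [div_le_one (by linarith)]; linarith
    linarith
  have h3 : vv p = (1 - 1 / p) * (1 / ((p : ℝ) * (p - 1)) + 1) := by
    unfold vv
    have h4 : (p : ℝ) - 1 ≠ 0 := by linarith
    field_simp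
    ring
  rw [h3]
  exact mul_le_mul_of_nonneg_left h1 h2

lemma sum_telescope (n : ℕ) (hn : 1 ≤ n) :
    ∑ m ∈ Icc 2 n, 1 / ((m : ℝ) * (m - 1)) ≤ 1 - 1 / n := by
  induction n, hn using Nat.le_induction with
  | base => simp
  | succ n hn ih =>
    rw [← insert_Icc_right_eq_Icc_add_one (by omega), sum_insert (by simp)]
    have hn' : (1 : ℝ) ≤ n := by exact_mod_cast hn
    have : 1 / (((n + 1 : ℕ) : ℝ) * ((n + 1 : ℕ) - 1)) = 1 / n - 1 / ((n + 1 : ℕ) : ℝ) := by
      push_cast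
      have : (n : ℝ) + 1 - 1 ≠ 0 := by linarith
      field_simp
      ring
    rw [this]
    linarith

lemma prod_vv_le (z : ℕ) (hz : 1 ≤ z) :
    ∏ p ∈ (Icc 1 z).filter Nat.Prime, vv p ≤ Real.exp 1 / Real.log (z + 1) := by
  have h1 := prod_one_sub_inv_le z hz
  have hnn : 0 ≤ ∏ p ∈ (Icc 1 z).filter Nat.Prime, (1 - 1 / (p : ℝ)) := by
    apply prod_nonneg
    intro p hp
    have hp' : (2 : ℝ) ≤ p := by exact_mod_cast (mem_filter.1 hp).2.two_le
    have : (1 : ℝ) / p ≤ 1 := by rw [div_le_one (by linarith)]; linarith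
    linarith
  calc _ ≤ ∏ p ∈ (Icc 1 z).filter Nat.Prime, ((1 - 1 / (p : ℝ)) * Real.exp (1 / ((p : ℝ) * (p - 1)))) := by
        apply prod_le_prod
        · intro p hp; exact vv_nonneg (mem_filter.1 hp).2.two_le
        · intro p hp; exact vv_le (mem_filter.1 hp).2.two_le
    _ = (∏ p ∈ (Icc 1 z).filter Nat.Prime, (1 - 1 / (p : ℝ))) *
          Real.exp (∑ p ∈ (Icc 1 z).filter Nat.Prime, 1 / ((p : ℝ) * (p - 1))) := by
        rw [prod_mul_distrib, Real.exp_sum]
    _ ≤ (∏ p ∈ (Icc 1 z).filter Nat.Prime, (1 - 1 / (p : ℝ))) * Real.exp 1 := by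
        apply mul_le_mul_of_nonneg_left _ hnn
        rw [Real.exp_le_exp]
        calc _ ≤ ∑ m ∈ Icc 2 z, 1 / ((m : ℝ) * (m - 1)) := by
              apply sum_le_sum_of_subset_of_nonneg
              · intro p hp
                rw [mem_filter, mem_Icc] at hp
                rw [mem_Icc]
                exact ⟨hp.2.two_le, hp.1.2⟩
              · intro m hm _
                rw [mem_Icc] at hm
                have : (2 : ℝ) ≤ m := by exact_mod_cast hm.1
                apply div_nonneg zero_le_one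
                apply mul_nonneg <;> linarith
          _ ≤ 1 - 1 / z := sum_telescope z hz
          _ ≤ 1 := by
              have : (0 : ℝ) ≤ 1 / z := by positivity
              linarith
    _ ≤ 1 / Real.log (z + 1) * Real.exp 1 := mul_le_mul_of_nonneg_right h1 (Real.exp_pos 1).le
    _ = _ := by ring

lemma prod_sdiff_le (z : ℕ) (hz : 1 ≤ z) (B : Finset ℕ) (hB : B ⊆ (Icc 1 z).filter Nat.Prime) :
    ∏ p ∈ (Icc 1 z).filter Nat.Prime \ B, vv p ≤
      Real.exp 1 / Real.log (z + 1) * Real.exp (∑ p ∈ B, 1 / (p : ℝ)) := by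
  have hnn : 0 ≤ ∏ p ∈ (Icc 1 z).filter Nat.Prime \ B, vv p := by
    apply prod_nonneg
    intro p hp
    exact vv_nonneg (mem_filter.1 (mem_sdiff.1 hp).1).2.two_le
  have h1 : 1 ≤ (∏ p ∈ B, vv p) * Real.exp (∑ p ∈ B, 1 / (p : ℝ)) := by
    rw [Real.exp_sum, ← prod_mul_distrib]
    exact one_le_prodR fun p hp => one_le_vv_mul (mem_filter.1 (hB hp)).2.two_le
  calc ∏ p ∈ (Icc 1 z).filter Nat.Prime \ B, vv p
      ≤ (∏ p ∈ (Icc 1 z).filter Nat.Prime \ B, vv p) *
          ((∏ p ∈ B, vv p) * Real.exp (∑ p ∈ B, 1 / (p : ℝ))) := le_mul_of_one_le_right hnn h1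
    _ = (∏ p ∈ (Icc 1 z).filter Nat.Prime, vv p) * Real.exp (∑ p ∈ B, 1 / (p : ℝ)) := by
        rw [← mul_assoc, prod_sdiff hB]
    _ ≤ _ := mul_le_mul_of_nonneg_right (prod_vv_le z hz) (Real.exp_pos _).le

lemma sum_inv_dvd (n : ℕ) (hn : n ≠ 0) (w k : ℕ) (hw1 : 1 ≤ w) (hw : n ≤ 2 ^ w) (hk : 1 ≤ k)
    (hwk : w ≤ 2 ^ k) : ∑ p ∈ n.primeFactors, (1 : ℝ) / p ≤ 6 + 5 * Real.log k := by
  have hw' : (1 : ℝ) ≤ w := by exact_mod_cast hw1
  have hcard : #n.primeFactors ≤ w := by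
    have h1 : 2 ^ #n.primeFactors ≤ ∏ p ∈ n.primeFactors, p :=
      pow_card_le_prod _ _ _ fun p hp => (Nat.prime_of_mem_primeFactors hp).two_le
    have h2 : ∏ p ∈ n.primeFactors, p ≤ n :=
      Nat.le_of_dvd (Nat.pos_of_ne_zero hn) (Nat.prod_primeFactors_dvd n)
    exact (Nat.pow_le_pow_iff_right (by norm_num)).1 (h1.trans (h2.trans hw))
  rw [← sum_filter_add_sum_filter_not n.primeFactors (fun p => p ≤ w)]
  have h1 : ∑ p ∈ n.primeFactors with p ≤ w, (1 : ℝ) / p ≤ 5 + 5 * Real.log k := by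
    refine le_trans ?_ (sum_inv_le w k hk hwk)
    apply sum_le_sum_of_subset_of_nonneg
    · intro p hp
      rw [mem_filter] at hp
      have := Nat.prime_of_mem_primeFactors hp.1
      rw [mem_filter, mem_Icc]
      exact ⟨⟨this.one_lt.le, hp.2⟩, this⟩
    · intro _ _ _; positivity
  have h2 : ∑ p ∈ n.primeFactors with ¬ p ≤ w, (1 : ℝ) / p ≤ 1 := by
    calc _ ≤ ∑ p ∈ n.primeFactors with ¬ p ≤ w, (1 : ℝ) / w := by
          apply sum_le_sum
          intro p hp
          rw [mem_filter] at hp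
          apply one_div_le_one_div_of_le (by linarith)
          exact_mod_cast (not_le.1 hp.2).le
      _ = #(n.primeFactors.filter (fun p => ¬ p ≤ w)) * ((1 : ℝ) / w) := by
          rw [sum_const, nsmul_eq_mul]
      _ ≤ w * ((1 : ℝ) / w) := by
          apply mul_le_mul_of_nonneg_right _ (by positivity)
          exact_mod_cast (card_le_card (filter_subset _ _)).trans hcard
      _ = 1 := by field_simp
  linarith

/-- The small primes. -/
def PP (z pe : ℕ) : Finset ℕ := (Icc 1 z).filter fun p => p.Prime ∧ p ≠ pe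

/-- The bound for the averaged product over the small primes. -/
lemma prod_uu_le {K : ℕ} (h : Fin K → ℕ) (c : ℕ) (hc : c.Prime) (z pe : ℕ) (hz : 1 ≤ z)
    (hpe : pe.Prime) (j : ℤ) (hj : ∀ i, j ≠ c * h i) (w k : ℕ) (hw1 : 1 ≤ w)
    (hw : ∀ i, (j - c * h i).natAbs ≤ 2 ^ w) (hk : 1 ≤ k) (hwk : w ≤ 2 ^ k) :
    ∏ p ∈ PP z pe, uu h c p j ≤
      Real.exp 1 / Real.log (z + 1) * Real.exp (1 + K * (6 + 5 * Real.log k)) := by
  classical
  set Q := (Icc 1 z).filter Nat.Prime with hQ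
  set B := Q.filter (fun p => p = pe ∨ p ∣ c ∨ ∃ i, (p : ℤ) ∣ j - c * h i) with hB
  have hBQ : B ⊆ Q := filter_subset _ _
  have hsub : Q \ B ⊆ PP z pe := by
    intro p hp
    rw [mem_sdiff] at hp
    have h1 : ¬ (p = pe ∨ p ∣ c ∨ ∃ i, (p : ℤ) ∣ j - c * h i) := fun hh => hp.2 (by
      rw [hB, mem_filter]; exact ⟨hp.1, hh⟩)
    have h2 := hp.1
    rw [hQ, mem_filter] at h2
    rw [PP, mem_filter]
    exact ⟨h2.1, h2.2, fun h => h1 (Or.inl h)⟩
  have h1 : ∏ p ∈ PP z pe, uu h c p j ≤ ∏ p ∈ Q \ B, uu h c p j := by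
    rw [← prod_sdiff hsub]
    apply mul_le_of_le_one_left
    · exact prod_nonneg fun p _ => uu_nonneg _ _ _ _
    · exact prod_le_one (fun p _ => uu_nonneg _ _ _ _) (fun p _ => uu_le_one _ _ _ _)
  have h2 : ∏ p ∈ Q \ B, uu h c p j ≤ ∏ p ∈ Q \ B, vv p := by
    apply prod_le_prod
    · intro p _; exact uu_nonneg _ _ _ _
    · intro p hp
      rw [mem_sdiff] at hp
      have h3 : ¬ (p = pe ∨ p ∣ c ∨ ∃ i, (p : ℤ) ∣ j - c * h i) := fun hh => hp.2 (by
        rw [hB, mem_filter]; exact ⟨hp.1, hh⟩)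
      have h4 := hp.1
      rw [hQ, mem_filter] at h4
      exact uu_le h c p j h4.2 (fun hh => h3 (Or.inr (Or.inl hh)))
        (fun i hi => h3 (Or.inr (Or.inr ⟨i, hi⟩)))
  refine (h1.trans h2).trans ((prod_sdiff_le z hz B hBQ).trans ?_)
  apply mul_le_mul_of_nonneg_left
  · rw [Real.exp_le_exp]
    have h5 : ∑ p ∈ B, 1 / (p : ℝ) ≤ ∑ p ∈ B, ((if p = pe then 1 / (p : ℝ) else 0) +
        (if p = c then 1 / (p : ℝ) else 0) +
        ∑ i, (if (p : ℤ) ∣ j - c * h i then 1 / (p : ℝ) else 0)) := by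
      apply sum_le_sum
      intro p hp
      rw [hB, mem_filter, hQ, mem_filter] at hp
      have hnn : (0 : ℝ) ≤ 1 / p := by positivity
      have hs : 0 ≤ ∑ i, (if (p : ℤ) ∣ j - c * h i then 1 / (p : ℝ) else 0) :=
        sum_nonneg fun i _ => by split_ifs <;> positivity
      rcases hp.2 with h6 | h6 | ⟨i, h6⟩
      · rw [if_pos h6]
        have : (0 : ℝ) ≤ (if p = c then 1 / (p : ℝ) else 0) := by split_ifs <;> positivity
        linarith
      · have : p = c := (Nat.prime_dvd_prime_iff_eq hp.1.2 hc).1 h6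
        rw [if_pos this]
        have : (0 : ℝ) ≤ (if p = pe then 1 / (p : ℝ) else 0) := by split_ifs <;> positivity
        linarith
      · have h7 : 1 / (p : ℝ) ≤ ∑ i, (if (p : ℤ) ∣ j - c * h i then 1 / (p : ℝ) else 0) := by
          calc 1 / (p : ℝ) = (if (p : ℤ) ∣ j - c * h i then 1 / (p : ℝ) else 0) := by rw [if_pos h6]
            _ ≤ _ := single_le_sum (f := fun i => (if (p : ℤ) ∣ j - c * h i then 1 / (p : ℝ) else 0))
              (fun i _ => by split_ifs <;> positivity) (mem_univ i)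
        have : (0 : ℝ) ≤ (if p = pe then 1 / (p : ℝ) else 0) := by split_ifs <;> positivity
        have : (0 : ℝ) ≤ (if p = c then 1 / (p : ℝ) else 0) := by split_ifs <;> positivity
        linarith
    refine h5.trans ?_
    rw [sum_add_distrib, sum_add_distrib, sum_comm]
    have half : ∀ q : ℕ, q.Prime → ∑ p ∈ B, (if p = q then 1 / (p : ℝ) else 0) ≤ 1 / 2 := by
      intro q hq
      rw [sum_ite_eq']
      split_ifs
      · apply one_div_le_one_div_of_le (by norm_num)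
        exact_mod_cast hq.two_le
      · norm_num
    have h8 : ∑ i, ∑ p ∈ B, (if (p : ℤ) ∣ j - c * h i then 1 / (p : ℝ) else 0) ≤
        ∑ i : Fin K, (6 + 5 * Real.log k) := by
      apply sum_le_sum
      intro i _
      have h9 : (j - c * h i).natAbs ≠ 0 := by
        rw [Int.natAbs_ne_zero, sub_ne_zero]; exact hj i
      refine le_trans ?_ (sum_inv_dvd _ h9 w k hw1 (hw i) hk hwk)
      rw [← sum_filter]
      apply sum_le_sum_of_subset_of_nonneg
      · intro p hp
        rw [mem_filter, hB, mem_filter, hQ, mem_filter] at hp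
        rw [Nat.mem_primeFactors]
        exact ⟨hp.1.1.2, Int.natCast_dvd.1 hp.2, h9⟩
      · intro _ _ _; positivity
    rw [sum_const, card_univ, Fintype.card_fin, nsmul_eq_mul] at h8
    have := half pe hpe
    have := half c hc
    linarith
  · have : 0 < Real.log (z + 1) := Real.log_pos (by
      have : (1 : ℝ) ≤ z := by exact_mod_cast hz
      linarith)
    positivity

end Pool.Agent.Helper7.Cover
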