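import Mathlib

/-!
Numerical lemmas for the covering statement.
-/

open Finset Filter Topology

namespace Pool.Agent.Helper7.Cover

lemma ev_log (A s : ℝ) (hA : 0 < A) (hs : 0 < s) : ∀ᶠ T : ℝ in atTop, A * Real.log T ≤ T ^ s := by
  have h := (isLittleO_log_rpow_atTop hs).bound (c := 1 / A) (by positivity)
  filter_upwards [h, eventually_ge_atTop 1] with T hT hT1
  rw [Real.norm_of_nonneg (Real.log_nonneg hT1), Real.norm_of_nonneg (by positivity)] at hT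
  calc A * Real.log T ≤ A * (1 / A * T ^ s) := mul_le_mul_of_nonneg_left hT hA.le
    _ = T ^ s := by field_simp

lemma ev_const (B s : ℝ) (hs : 0 < s) : ∀ᶠ T : ℝ in atTop, B ≤ T ^ s :=
  (tendsto_rpow_atTop hs).eventually_ge_atTop B

lemma exp_sub_one_le (s : ℝ) (hs : 1 ≤ s) : Real.exp (s - 1) ≤ Real.exp s - 1 := by
  have h1 : Real.exp s = Real.exp (s - 1) * Real.exp 1 := by rw [← Real.exp_add]; congr 1; ring
  have h2 : 2 ≤ Real.exp 1 := by have := Real.add_one_le_exp 1; linarith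
  have h3 : 1 ≤ Real.exp (s - 1) := Real.one_le_exp (by linarith)
  rw [h1]; nlinarith

lemma exp_le_two_pow (s : ℝ) (hs : 0 ≤ s) : Real.exp s ≤ 2 ^ ⌈2 * s⌉₊ := by
  have hl2 := Real.log_two_gt_d9
  rw [← Real.rpow_natCast]
  calc Real.exp s ≤ Real.exp (Real.log 2 * (2 * s)) := by
        rw [Real.exp_le_exp]; nlinarith
    _ = (2 : ℝ) ^ (2 * s) := by rw [Real.rpow_def_of_pos (by norm_num)]
    _ ≤ _ := Real.rpow_le_rpow_of_exponent_le (by norm_num) (Nat.le_ceil _)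

lemma t2_ge (t : ℝ) (ht : 300 ≤ t) : 90000 ≤ t ^ 2 := by
  have := pow_le_pow_left₀ (by norm_num) ht 2
  norm_num at this ⊢
  exact this

lemma t34 (t : ℝ) (ht : 300 ≤ t) : 300 * t ^ 3 ≤ t ^ 4 := by
  have h0 : 0 ≤ t ^ 3 := pow_nonneg (by linarith) 3
  calc 300 * t ^ 3 ≤ t * t ^ 3 := mul_le_mul_of_nonneg_right ht h0
    _ = t ^ 4 := by ring

lemma t23 (t : ℝ) (ht : 300 ≤ t) : 300 * t ^ 2 ≤ t ^ 3 := by
  have h0 : 0 ≤ t ^ 2 := pow_nonneg (by linarith) 2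
  calc 300 * t ^ 2 ≤ t * t ^ 2 := mul_le_mul_of_nonneg_right ht h0
    _ = t ^ 3 := by ring

lemma t24 (t : ℝ) (ht : 300 ≤ t) : 90000 * t ^ 2 ≤ t ^ 4 := by
  have := t34 t ht
  have := t23 t ht
  linarith

lemma t_le_t3 (t : ℝ) (ht : 300 ≤ t) : t ≤ t ^ 3 := by
  have h2 := t2_ge t ht
  calc t = t * 1 := by ring
    _ ≤ t * t ^ 2 := mul_le_mul_of_nonneg_left (by linarith) (by linarith)
    _ = t ^ 3 := by ring

lemma z_ge (t : ℝ) (ht : 300 ≤ t) : Real.exp (t ^ 3 - 1) ≤ (⌊Real.exp (t ^ 3)⌋₊ : ℝ) := by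
  have h1 := t_le_t3 t ht
  refine (exp_sub_one_le _ (by linarith)).trans ?_
  have := Nat.lt_floor_add_one (Real.exp (t ^ 3))
  linarith

lemma z_t (t : ℝ) (ht : 300 ≤ t) : t ^ 3 ≤ (⌊Real.exp (t ^ 3)⌋₊ : ℝ) := by
  have h1 := z_ge t ht
  have := Real.add_one_le_exp (t ^ 3 - 1)
  linarith

lemma y_ge (t : ℝ) (ht : 300 ≤ t) :
    Real.exp (t ^ 4 - t ^ 2 - 1) ≤ (⌊Real.exp (t ^ 4 - t ^ 2)⌋₊ : ℝ) := by
  have h1 := t24 t ht
  have h2 := t2_ge t ht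
  refine (exp_sub_one_le _ (by linarith)).trans ?_
  have := Nat.lt_floor_add_one (Real.exp (t ^ 4 - t ^ 2))
  linarith

lemma y_log (t : ℝ) (ht : 300 ≤ t) (hy : 0 < ⌊Real.exp (t ^ 4 - t ^ 2)⌋₊) :
    t ^ 4 / 2 ≤ Real.log (⌊Real.exp (t ^ 4 - t ^ 2)⌋₊ : ℝ) := by
  have h1 := t24 t ht
  have h2 := t2_ge t ht
  have h3 : t ^ 4 - t ^ 2 - 1 ≤ Real.log (⌊Real.exp (t ^ 4 - t ^ 2)⌋₊ : ℝ) := by
    rw [Real.le_log_iff_exp_le (by exact_mod_cast hy)]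
    exact y_ge t ht
  linarith

lemma zy_le (t : ℝ) (ht : 300 ≤ t) : ⌊Real.exp (t ^ 3)⌋₊ ≤ ⌊Real.exp (t ^ 4 - t ^ 2)⌋₊ := by
  apply Nat.floor_le_floor
  rw [Real.exp_le_exp]
  have h1 := t34 t ht
  have h2 := t23 t ht
  have h3 := t2_ge t ht
  linarith

lemma w_bound (t : ℝ) (ht : 300 ≤ t) (J : ℕ) (hJ : (J : ℝ) = Real.exp (t ^ 4)) :
    4 * J ≤ 2 ^ (⌈2 * t ^ 4⌉₊ + 2) := by
  have h4 : (4 * J : ℝ) ≤ 2 ^ (⌈2 * t ^ 4⌉₊ + 2) := by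
    rw [pow_add]
    have h5 : (J : ℝ) ≤ 2 ^ ⌈2 * t ^ 4⌉₊ := by
      rw [hJ]; exact exp_le_two_pow _ (pow_nonneg (by linarith) 4)
    linarith
  exact_mod_cast h4

lemma t_le_J (t : ℝ) (ht : 300 ≤ t) (J : ℕ) (hJ : (J : ℝ) = Real.exp (t ^ 4)) : t ≤ J := by
  rw [hJ]
  have := Real.add_one_le_exp (t ^ 4)
  have h1 := t_le_t3 t ht
  have h2 := t34 t ht
  linarith

lemma t2_le_J (t : ℝ) (ht : 300 ≤ t) (J : ℕ) (hJ : (J : ℝ) = Real.exp (t ^ 4)) : t ^ 2 ≤ J := by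
  rw [hJ]
  have := Real.add_one_le_exp (t ^ 4)
  have h1 := t24 t ht
  have h2 := t2_ge t ht
  linarith

lemma w_le (t : ℝ) (ht : 300 ≤ t) : ((⌈2 * t ^ 4⌉₊ + 2 : ℕ) : ℝ) ≤ t ^ 5 := by
  push_cast
  have h0 : 0 ≤ t ^ 4 := pow_nonneg (by linarith) 4
  have := Nat.ceil_lt_add_one (show 0 ≤ 2 * t ^ 4 by linarith)
  have h1 : 300 * t ^ 4 ≤ t ^ 5 := by
    calc 300 * t ^ 4 ≤ t * t ^ 4 := mul_le_mul_of_nonneg_right ht h0
      _ = t ^ 5 := by ring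
  have h2 := t24 t ht
  have h3 := t2_ge t ht
  linarith

lemma t5_le (t ε : ℝ) (ht : 300 ≤ t) (k : ℕ) (hk : t ^ ε ≤ k)
    (ht1 : 10 * Real.log t ≤ t ^ ε) : t ^ 5 ≤ (2 : ℝ) ^ k := by
  have hl2 := Real.log_two_gt_d9
  have ht0 : 0 < t := by linarith
  have hlogt : 0 ≤ Real.log t := Real.log_nonneg (by linarith)
  calc t ^ 5 = Real.exp (5 * Real.log t) := by
        rw [mul_comm, Real.exp_mul, Real.exp_log ht0]; norm_cast
    _ ≤ Real.exp (Real.log 2 * k) := by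
        rw [Real.exp_le_exp]
        have h1 : 10 * Real.log t ≤ k := ht1.trans hk
        have h2 : (0 : ℝ) ≤ k := Nat.cast_nonneg k
        calc 5 * Real.log t ≤ 1 / 2 * k := by linarith
          _ ≤ Real.log 2 * k := mul_le_mul_of_nonneg_right (by linarith) h2
    _ = (2 : ℝ) ^ (k : ℝ) := by rw [Real.rpow_def_of_pos (by norm_num)]
    _ = _ := Real.rpow_natCast _ _

lemma w_le_two_pow (t ε : ℝ) (ht : 300 ≤ t) (ht1 : 10 * Real.log t ≤ t ^ ε) :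
    ⌈2 * t ^ 4⌉₊ + 2 ≤ 2 ^ ⌈t ^ ε⌉₊ := by
  have h := (w_le t ht).trans (t5_le t ε ht ⌈t ^ ε⌉₊ (Nat.le_ceil _) ht1)
  exact_mod_cast h

lemma k'_le (t : ℝ) (ht : 300 ≤ t) : (⌈2 * t ^ 3⌉₊ : ℝ) ≤ 3 * t ^ 3 := by
  have h0 := t_le_t3 t ht
  have := Nat.ceil_lt_add_one (show 0 ≤ 2 * t ^ 3 by linarith)
  linarith

lemma z_le_two_pow (t : ℝ) (ht : 300 ≤ t) : ⌊Real.exp (t ^ 3)⌋₊ ≤ 2 ^ ⌈2 * t ^ 3⌉₊ := by
  have h0 := t_le_t3 t ht
  have h1 : (⌊Real.exp (t ^ 3)⌋₊ : ℝ) ≤ 2 ^ ⌈2 * t ^ 3⌉₊ :=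
    (Nat.floor_le (Real.exp_pos _).le).trans (exp_le_two_pow _ (by linarith))
  exact_mod_cast h1

lemma inv_t3 (t : ℝ) (ht : 300 ≤ t) : 1 / t ^ 3 ≤ 1 / 2 := by
  have h0 := t_le_t3 t ht
  apply one_div_le_one_div_of_le (by norm_num); linarith

lemma z_pow (t : ℝ) (ht : 300 ≤ t) :
    (⌊Real.exp (t ^ 3)⌋₊ : ℝ) ^ (1 - (1 - 1 / t ^ 3)) ≤ 3 := by
  have h0 := t_le_t3 t ht
  have ht3 : 0 < t ^ 3 := by linarith
  have h1 : 1 - (1 - 1 / t ^ 3) = 1 / t ^ 3 := by ring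
  rw [h1]
  calc (⌊Real.exp (t ^ 3)⌋₊ : ℝ) ^ (1 / t ^ 3) ≤ (Real.exp (t ^ 3)) ^ (1 / t ^ 3) :=
        Real.rpow_le_rpow (Nat.cast_nonneg _) (Nat.floor_le (Real.exp_pos _).le)
          (one_div_pos.2 ht3).le
    _ = Real.exp 1 := by rw [← Real.exp_mul]; congr 1; field_simp
    _ ≤ 3 := by have := Real.exp_one_lt_d9; linarith

lemma hE_bound (K : ℕ) (t ε : ℝ) (ht : 300 ≤ t) (hε : ε = 1 / (10 * ((K : ℝ) + 1))) (k : ℕ)
    (hk1 : 1 ≤ k) (hk_le : (k : ℝ) ≤ 2 * t ^ ε) :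
    Real.exp 1 / Real.log ((⌊Real.exp (t ^ 3)⌋₊ : ℝ) + 1) *
      Real.exp (1 + K * (6 + 5 * Real.log k)) ≤
      Real.exp (2 + 10 * K) * t ^ (1 / 2 : ℝ) / t ^ 3 := by
  have ht0 : 0 < t := by linarith
  have hlogt : 0 ≤ Real.log t := Real.log_nonneg (by linarith)
  have ht3 : 0 < t ^ 3 := pow_pos ht0 3
  have h1 : t ^ 3 ≤ Real.log ((⌊Real.exp (t ^ 3)⌋₊ : ℝ) + 1) := by
    rw [Real.le_log_iff_exp_le (by positivity)]
    exact (Nat.lt_floor_add_one _).le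
  have h2 : Real.exp (1 + K * (6 + 5 * Real.log k)) ≤ Real.exp (1 + 10 * K) * t ^ (1 / 2 : ℝ) := by
    have h3 : Real.log k ≤ Real.log 2 + ε * Real.log t := by
      have h4 : Real.log k ≤ Real.log (2 * t ^ ε) :=
        Real.log_le_log (by exact_mod_cast hk1) hk_le
      rwa [Real.log_mul (by norm_num) (by positivity), Real.log_rpow ht0] at h4
    have h5 : (K : ℝ) * ε ≤ 1 / 10 := by
      rw [hε, mul_one_div, div_le_div_iff₀ (by positivity) (by norm_num)]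
      linarith
    rw [Real.rpow_def_of_pos ht0, ← Real.exp_add, Real.exp_le_exp]
    have h6 := Real.log_two_lt_d9
    have hK : (0 : ℝ) ≤ K := Nat.cast_nonneg K
    have h7 : (K : ℝ) * Real.log k ≤ K * Real.log 2 + 1 / 10 * Real.log t := by
      calc (K : ℝ) * Real.log k ≤ K * (Real.log 2 + ε * Real.log t) :=
            mul_le_mul_of_nonneg_left h3 hK
        _ = K * Real.log 2 + (K * ε) * Real.log t := by ring
        _ ≤ _ := by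
            have := mul_le_mul_of_nonneg_right h5 hlogt
            linarith
    have h8 : (K : ℝ) * Real.log 2 ≤ K * 0.7 :=
      mul_le_mul_of_nonneg_left (by linarith) hK
    linarith
  calc _ ≤ Real.exp 1 / t ^ 3 * (Real.exp (1 + 10 * K) * t ^ (1 / 2 : ℝ)) := by
        apply mul_le_mul _ h2 (Real.exp_pos _).le (div_nonneg (Real.exp_pos _).le ht3.le)
        exact div_le_div_of_nonneg_left (Real.exp_pos _).le ht3 h1
    _ = _ := by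
        have h8 : Real.exp (2 + 10 * K) = Real.exp 1 * Real.exp (1 + 10 * K) := by
          rw [← Real.exp_add]; congr 1; ring
        rw [h8]
        ring

lemma exp4_ge : (24 : ℝ) ≤ Real.exp 4 := by
  have h9 : Real.exp 4 = (Real.exp 1) ^ 4 := by rw [← Real.exp_nat_mul]; norm_num
  have h10 := Real.exp_one_gt_d9
  rw [h9]
  have h11 : (2.7 : ℝ) ^ 4 ≤ (Real.exp 1) ^ 4 := pow_le_pow_left₀ (by norm_num) (by linarith) 4
  norm_num at h11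
  linarith

lemma J_pow (t : ℝ) (ht : 300 ≤ t) (J : ℕ) (hJ : (J : ℝ) = Real.exp (t ^ 4)) :
    ((3 * J : ℕ) : ℝ) ^ (1 - 1 / t ^ 3) ≤ 3 * J * Real.exp (-t) := by
  have hJ0 : (0 : ℝ) < J := by rw [hJ]; exact Real.exp_pos _
  have ht3 : 0 < t ^ 3 := by have := t_le_t3 t ht; linarith
  have h2 : (0 : ℝ) < ((3 * J : ℕ) : ℝ) := by push_cast; linarith
  rw [sub_eq_add_neg, Real.rpow_add h2, Real.rpow_one]
  push_cast
  apply mul_le_mul_of_nonneg_left _ (by linarith)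
  have hinv0 : 0 < 1 / t ^ 3 := one_div_pos.2 ht3
  have h3 : (3 * (J : ℝ)) ^ (-(1 / t ^ 3)) ≤ (J : ℝ) ^ (-(1 / t ^ 3)) :=
    Real.rpow_le_rpow_of_nonpos hJ0 (by linarith) (by linarith)
  refine h3.trans (le_of_eq ?_)
  rw [hJ, ← Real.exp_mul]
  congr 1
  field_simp

lemma k'_exp (t : ℝ) (ht : 300 ≤ t) :
    Real.exp (12 * (5 + 5 * Real.log (⌈2 * t ^ 3⌉₊ : ℝ))) ≤ Real.exp (126 + 180 * Real.log t) := by
  have ht0 : 0 < t := by linarith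
  have ht3 : 0 < t ^ 3 := pow_pos ht0 3
  have hk'1 : 1 ≤ ⌈2 * t ^ 3⌉₊ := Nat.one_le_ceil_iff.2 (by linarith)
  rw [Real.exp_le_exp]
  have h5 : Real.log (⌈2 * t ^ 3⌉₊ : ℝ) ≤ Real.log 3 + 3 * Real.log t := by
    have h6 : Real.log (⌈2 * t ^ 3⌉₊ : ℝ) ≤ Real.log (3 * t ^ 3) :=
      Real.log_le_log (by exact_mod_cast hk'1) (k'_le t ht)
    rw [Real.log_mul (by norm_num) ht3.ne', Real.log_pow] at h6
    exact_mod_cast h6
  have h7 : Real.log 3 ≤ 1.1 := by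
    have := Real.log_three_lt_d9; linarith
  linarith

lemma hA_bound (t : ℝ) (ht : 300 ≤ t) (J : ℕ) (hJ : (J : ℝ) = Real.exp (t ^ 4))
    (ht2 : 364 * Real.log t ≤ t) :
    2 * (((3 * J : ℕ) : ℝ) ^ (1 - 1 / t ^ 3) *
      (4 * Real.exp (12 * (5 + 5 * Real.log (⌈2 * t ^ 3⌉₊ : ℝ))))) ≤ J / t ^ 2 := by
  have ht0 : 0 < t := by linarith
  have hJ0 : (0 : ℝ) < J := by rw [hJ]; exact Real.exp_pos _
  have h1 := J_pow t ht J hJ
  have h4 := k'_exp t ht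
  have hlogt : 0 ≤ Real.log t := Real.log_nonneg (by linarith)
  have h0 : 0 ≤ 3 * (J : ℝ) * Real.exp (-t) :=
    mul_nonneg (by linarith) (Real.exp_pos _).le
  have hb : 0 ≤ (J : ℝ) * (Real.exp (-t) * Real.exp (126 + 180 * Real.log t)) :=
    mul_nonneg hJ0.le (mul_pos (Real.exp_pos _) (Real.exp_pos _)).le
  calc 2 * (((3 * J : ℕ) : ℝ) ^ (1 - 1 / t ^ 3) *
        (4 * Real.exp (12 * (5 + 5 * Real.log (⌈2 * t ^ 3⌉₊ : ℝ)))))
      ≤ 2 * ((3 * J * Real.exp (-t)) * (4 * Real.exp (126 + 180 * Real.log t))) := by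
        apply mul_le_mul_of_nonneg_left _ (by norm_num)
        apply mul_le_mul h1 (mul_le_mul_of_nonneg_left h4 (by norm_num))
          (mul_nonneg (by norm_num) (Real.exp_pos _).le) h0
    _ = 24 * (J * (Real.exp (-t) * Real.exp (126 + 180 * Real.log t))) := by ring
    _ ≤ Real.exp 4 * (J * (Real.exp (-t) * Real.exp (126 + 180 * Real.log t))) :=
        mul_le_mul_of_nonneg_right exp4_ge hb
    _ = J * Real.exp (4 + (-t + (126 + 180 * Real.log t))) := by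
        rw [Real.exp_add 4, Real.exp_add (-t)]; ring
    _ ≤ J * Real.exp (-(2 * Real.log t)) := by
        apply mul_le_mul_of_nonneg_left _ hJ0.le
        rw [Real.exp_le_exp]
        linarith
    _ = J / t ^ 2 := by
        rw [Real.exp_neg, mul_comm 2 (Real.log t), Real.exp_mul, Real.exp_log ht0]
        rw [div_eq_mul_inv]; norm_cast

lemma log_quot (t : ℝ) (ht : 300 ≤ t) (J : ℕ) (hJ : (J : ℝ) = Real.exp (t ^ 4)) :
    Real.log (((3 * J : ℕ) : ℝ) / (⌊Real.exp (t ^ 4 - t ^ 2)⌋₊ : ℝ)) ≤ t ^ 2 + 3 := by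
  have hJ0 : (0 : ℝ) < J := by rw [hJ]; exact Real.exp_pos _
  have hy0 : (0 : ℝ) < (⌊Real.exp (t ^ 4 - t ^ 2)⌋₊ : ℝ) := lt_of_lt_of_le (Real.exp_pos _) (y_ge t ht)
  have h0 : (0 : ℝ) < ((3 * J : ℕ) : ℝ) := by push_cast; linarith
  rw [Real.log_le_iff_le_exp (div_pos h0 hy0), div_le_iff₀ hy0]
  push_cast
  have h3 : (3 : ℝ) ≤ Real.exp 2 := by have := Real.add_one_le_exp 2; linarith
  calc (3 * J : ℝ) ≤ Real.exp 2 * Real.exp (t ^ 4) := by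
        rw [hJ]; exact mul_le_mul_of_nonneg_right h3 (Real.exp_pos _).le
    _ = Real.exp (t ^ 2 + 3) * Real.exp (t ^ 4 - t ^ 2 - 1) := by
        rw [← Real.exp_add, ← Real.exp_add]; congr 1; ring
    _ ≤ _ := mul_le_mul_of_nonneg_left (y_ge t ht) (Real.exp_pos _).le

lemma hB_bound (t : ℝ) (ht : 300 ≤ t) (J : ℕ) (hJ : (J : ℝ) = Real.exp (t ^ 4))
    (hlogy : t ^ 4 / 2 ≤ Real.log (⌊Real.exp (t ^ 4 - t ^ 2)⌋₊ : ℝ)) :
    ((3 * J : ℕ) : ℝ) * ((5 * Real.log (((3 * J : ℕ) : ℝ) / (⌊Real.exp (t ^ 4 - t ^ 2)⌋₊ : ℝ)) + 3) /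
      Real.log (⌊Real.exp (t ^ 4 - t ^ 2)⌋₊ : ℝ)) ≤ 36 * (J / t ^ 2) := by
  have ht0 : 0 < t := by linarith
  have h2 := t2_ge t ht
  have ht4 : 0 < t ^ 4 := pow_pos ht0 4
  have h1 := log_quot t ht J hJ
  have h4 : (5 * Real.log (((3 * J : ℕ) : ℝ) / (⌊Real.exp (t ^ 4 - t ^ 2)⌋₊ : ℝ)) + 3) /
      Real.log (⌊Real.exp (t ^ 4 - t ^ 2)⌋₊ : ℝ) ≤ 6 * t ^ 2 / (t ^ 4 / 2) := by
    apply div_le_div₀ (by linarith) _ (by linarith) hlogy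
    linarith
  calc _ ≤ ((3 * J : ℕ) : ℝ) * (6 * t ^ 2 / (t ^ 4 / 2)) :=
        mul_le_mul_of_nonneg_left h4 (Nat.cast_nonneg _)
    _ = _ := by
        push_cast
        field_simp
        ring

lemma hC_bound (t : ℝ) (ht : 300 ≤ t) (J : ℕ) :
    2 * ((3 * J : ℕ) : ℝ) / (⌊Real.exp (t ^ 3)⌋₊ : ℝ) ≤ 6 * (J / t ^ 2) := by
  have ht0 : 0 < t := by linarith
  have h1 : t ^ 2 ≤ (⌊Real.exp (t ^ 3)⌋₊ : ℝ) := by
    have := z_t t ht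
    have := t23 t ht
    have := t2_ge t ht
    linarith
  calc 2 * ((3 * J : ℕ) : ℝ) / (⌊Real.exp (t ^ 3)⌋₊ : ℝ) ≤ 2 * ((3 * J : ℕ) : ℝ) / t ^ 2 :=
        div_le_div_of_nonneg_left (by positivity) (pow_pos ht0 2) h1
    _ = _ := by push_cast; ring

lemma hF_bound (t : ℝ) (ht : 300 ≤ t) (J : ℕ) (hJ : (J : ℝ) = Real.exp (t ^ 4))
    (ht2 : 364 * Real.log t ≤ t) (hy : 0 < ⌊Real.exp (t ^ 4 - t ^ 2)⌋₊) :
    1 + 2 * (((3 * J : ℕ) : ℝ) ^ (1 - 1 / t ^ 3) *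
        (4 * Real.exp (12 * (5 + 5 * Real.log (⌈2 * t ^ 3⌉₊ : ℝ)))) +
        ((3 * J : ℕ) : ℝ) * ((5 * Real.log (((3 * J : ℕ) : ℝ) / (⌊Real.exp (t ^ 4 - t ^ 2)⌋₊ : ℝ)) + 3) /
          Real.log (⌊Real.exp (t ^ 4 - t ^ 2)⌋₊ : ℝ))) +
        2 * ((3 * J : ℕ) : ℝ) / (⌊Real.exp (t ^ 3)⌋₊ : ℝ) ≤ 80 * (J / t ^ 2) := by
  have hA := hA_bound t ht J hJ ht2
  have hB := hB_bound t ht J hJ (y_log t ht hy)
  have hC := hC_bound t ht J
  have ht0 : 0 < t := by linarith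
  have hD : 1 ≤ (J : ℝ) / t ^ 2 := by
    rw [le_div_iff₀ (pow_pos ht0 2)]
    have := t2_le_J t ht J hJ
    linarith
  linarith

lemma final_bound (t X η : ℝ) (ht : 300 ≤ t) (J : ℕ) (hη : 0 < η)
    (ht3 : 80 * X / η ≤ t ^ (1 / 2 : ℝ)) :
    (X * t ^ (1 / 2 : ℝ) / t ^ 3) * (80 * (J / t ^ 2)) ≤ η * (J / t ^ 4) := by
  have ht0 : 0 < t := by linarith
  have hs : 0 ≤ t ^ (1 / 2 : ℝ) := (Real.rpow_pos_of_pos ht0 _).le
  have hr : 0 ≤ η * ((J : ℝ) / t ^ 5) :=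
    mul_nonneg hη.le (div_nonneg (Nat.cast_nonneg _) (pow_pos ht0 5).le)
  calc (X * t ^ (1 / 2 : ℝ) / t ^ 3) * (80 * (J / t ^ 2))
      = (80 * X / η) * t ^ (1 / 2 : ℝ) * (η * (J / t ^ 5)) := by
        field_simp
    _ ≤ t ^ (1 / 2 : ℝ) * t ^ (1 / 2 : ℝ) * (η * (J / t ^ 5)) :=
        mul_le_mul_of_nonneg_right (mul_le_mul_of_nonneg_right ht3 hs) hr
    _ = t * (η * (J / t ^ 5)) := by
        rw [← Real.rpow_add ht0]; norm_num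
    _ = _ := by field_simp

end Pool.Agent.Helper7.Cover
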