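import Mathlib
import Pool.Agent.Helper99.MT2.Statement
import Pool.Agent.Helper7.Cover.EBound
import Pool.Agent.Helper7.Cover.Num

/-!
The covering statement.
-/

open Finset Filter Topology

namespace Pool.Agent.Helper7.Cover

open Pool.Agent.Helper99.MT2

lemma union_eq (z y pe : ℕ) (hzy : z ≤ y) :
    PP z pe ∪ MM z y pe = (range (y + 1)).filter (fun p => p.Prime ∧ p ≠ pe) := by
  ext p
  rw [mem_union, PP, MM, mem_filter, mem_filter, mem_filter, mem_Icc, mem_Ioc, mem_range]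
  constructor
  · rintro (h | h)
    · exact ⟨by omega, h.2⟩
    · exact ⟨by omega, h.2⟩
  · rintro ⟨h1, h2⟩
    have := h2.1.one_lt
    rcases le_or_gt p z with h | h
    · left; exact ⟨⟨by omega, h⟩, h2⟩
    · right; exact ⟨⟨h, by omega⟩, h2⟩

/-- The deterministic form of the covering. -/
theorem cover_det {K : ℕ} (h : Fin K → ℕ) (hpos : ∀ i, 0 < h i) (hadm : Admissible h) (c : ℕ)
    (hc : c.Prime) (N z y pe w k k' : ℕ) (hz : 1 ≤ z) (hzy : z ≤ y) (hhz : ∀ i, h i ≤ z)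
    (hpe : pe.Prime) (hw1 : 1 ≤ w) (hw : ∀ i, N + c * h i ≤ 2 ^ w) (hk : 1 ≤ k)
    (hwk : w ≤ 2 ^ k) (hk'1 : 1 ≤ k') (hzk' : z ≤ 2 ^ k') (σ : ℝ) (hσ : 1 / 2 ≤ σ) (hσ1 : σ ≤ 1)
    (hzσ : (z : ℝ) ^ (1 - σ) ≤ 3) (hy2 : 2 ≤ y) (hyN : y ≤ N) :
    ∃ v : ℕ, (∀ i, Nat.Coprime (v + h i) (Wf y pe)) ∧
      ∑ j ∈ (Icc (-(N : ℤ)) (N : ℤ)).filter (fun j : ℤ => ∀ i, j ≠ c * h i),
        (1 : ℝ) / (Int.gcd (c * v + j) (Wf y pe)) ≤
      (Real.exp 1 / Real.log (z + 1) * Real.exp (1 + K * (6 + 5 * Real.log k))) *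
        (1 + 2 * ((N : ℝ) ^ σ * (4 * Real.exp (12 * (5 + 5 * Real.log k'))) +
          N * ((5 * Real.log (N / y) + 3) / Real.log y)) + 2 * N / z) := by
  have hPprime : ∀ p ∈ PP z pe, p.Prime := fun p hp => (mem_filter.1 hp).2.1
  have hMprime : ∀ p ∈ MM z y pe, p.Prime := fun p hp => (mem_filter.1 hp).2.1
  have hd : Disjoint (PP z pe) (MM z y pe) := by
    rw [disjoint_left]
    intro p hp hp'
    rw [PP, mem_filter, mem_Icc] at hp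
    rw [MM, mem_filter, mem_Ioc] at hp'
    omega
  obtain ⟨v, hv1, hv2⟩ := exists_v h c ((Icc (-(N : ℤ)) (N : ℤ)).filter (fun j : ℤ => ∀ i, j ≠ c * h i))
    (PP z pe) (MM z y pe) hPprime hMprime hd (fun p hp => hadm p (hPprime p hp)) (by
      intro p hp i hi
      have h1 := Nat.le_of_dvd (hpos i) hi
      have h2 := hhz i
      rw [MM, mem_filter, mem_Ioc] at hp
      omega)
  rw [union_eq z y pe hzy] at hv1 hv2
  refine ⟨v, hv1, hv2.trans ?_⟩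
  set E := Real.exp 1 / Real.log (z + 1) * Real.exp (1 + K * (6 + 5 * Real.log k)) with hE
  have hE0 : 0 ≤ E := by
    have : 0 < Real.log (z + 1) := Real.log_pos (by
      have : (1 : ℝ) ≤ z := by exact_mod_cast hz
      linarith)
    positivity
  have hF0 : ∀ j, 0 ≤ ∏ p ∈ MM z y pe, wt c p 0 j := fun j => prod_nonneg fun p _ => wt_nonneg _ _ _ _
  have h1 : ∑ j ∈ (Icc (-(N : ℤ)) (N : ℤ)).filter (fun j : ℤ => ∀ i, j ≠ c * h i),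
      (∏ p ∈ MM z y pe, wt c p 0 j) * ∏ p ∈ PP z pe, uu h c p j ≤
      ∑ j ∈ (Icc (-(N : ℤ)) (N : ℤ)).filter (fun j : ℤ => ∀ i, j ≠ c * h i),
      (∏ p ∈ MM z y pe, wt c p 0 j) * E := by
    apply sum_le_sum
    intro j hj
    rw [mem_filter, mem_Icc] at hj
    apply mul_le_mul_of_nonneg_left _ (hF0 j)
    apply prod_uu_le h c hc z pe hz hpe j hj.2 w k hw1 _ hk hwk
    intro i
    refine le_trans ?_ (hw i)
    have h2 : (0 : ℤ) ≤ c * h i := by positivity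
    have h3 : (((j - c * h i).natAbs : ℕ) : ℤ) ≤ (N + c * h i : ℕ) := by
      rw [Int.natCast_natAbs, abs_le]
      push_cast
      constructor <;> linarith [hj.1.1, hj.1.2]
    exact_mod_cast h3
  refine h1.trans ?_
  rw [← sum_mul, mul_comm]
  apply mul_le_mul_of_nonneg_left _ hE0
  have h2 : ∑ j ∈ (Icc (-(N : ℤ)) (N : ℤ)).filter (fun j : ℤ => ∀ i, j ≠ c * h i),
      (∏ p ∈ MM z y pe, wt c p 0 j) ≤ ∑ j ∈ Icc (-(N : ℤ)) (N : ℤ), ∏ p ∈ MM z y pe, wt c p 0 j :=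
    sum_le_sum_of_subset_of_nonneg (filter_subset _ _) fun j _ _ => hF0 j
  have h3 := sum_mid c N z y pe hz
  have h4 := count_mid N z y pe
  have h5 := rankin N (insert pe (Icc 1 z)) σ (by linarith)
  have h6 := prod_factor_le z k' pe σ hσ hσ1 hzσ hk'1 hzk'
  have h7 := sum_inv_Ioc y N hy2 hyN
  have h8 : (N : ℝ) ^ σ * ∏ p ∈ insert pe (Icc 1 z) with p.Prime, (1 - (p : ℝ) ^ (-σ))⁻¹ ≤
      (N : ℝ) ^ σ * (4 * Real.exp (12 * (5 + 5 * Real.log k'))) :=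
    mul_le_mul_of_nonneg_left h6 (by positivity)
  have h9 : (N : ℝ) * ∑ p ∈ (Ioc y N).filter Nat.Prime, (1 : ℝ) / p ≤
      N * ((5 * Real.log (N / y) + 3) / Real.log y) :=
    mul_le_mul_of_nonneg_left h7 (by positivity)
  linarith

/-- The covering for `J = exp (t ^ 4)`. -/
theorem cover_t {K : ℕ} (h : Fin K → ℕ) (hpos : ∀ i, 0 < h i) (hadm : Admissible h) (c : ℕ)
    (hc : c.Prime) (η : ℝ) (hη : 0 < η) (t : ℝ) (J : ℕ) (hJ : (J : ℝ) = Real.exp (t ^ 4))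
    (ht : 300 ≤ t) (hH : ((c * ∑ i, h i + ∑ i, h i : ℕ) : ℝ) ≤ t)
    (ht1 : 10 * Real.log t ≤ t ^ (1 / (10 * ((K : ℝ) + 1)))) (ht2 : 364 * Real.log t ≤ t)
    (ht3 : 80 * Real.exp (2 + 10 * K) / η ≤ t ^ (1 / 2 : ℝ)) (pe : ℕ) (hpe : pe.Prime) :
    ∃ v : ℕ, (∀ i, Nat.Coprime (v + h i) (Wf ⌊Real.exp (t ^ 4 - t ^ 2)⌋₊ pe)) ∧
      ∑ j ∈ (Icc (-((3 * J : ℕ) : ℤ)) ((3 * J : ℕ) : ℤ)).filter (fun j : ℤ => ∀ i, j ≠ c * h i),
        (1 : ℝ) / (Int.gcd (c * v + j) (Wf ⌊Real.exp (t ^ 4 - t ^ 2)⌋₊ pe)) ≤ η * (J / t ^ 4) := by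
  have ht0 : 0 < t := by linarith
  have hz_t := z_t t ht
  have hz1 : 1 ≤ ⌊Real.exp (t ^ 3)⌋₊ := by
    have : (1 : ℝ) ≤ (⌊Real.exp (t ^ 3)⌋₊ : ℝ) := by linarith [t_le_t3 t ht]
    exact_mod_cast this
  have hzy := zy_le t ht
  have hy2 : 2 ≤ ⌊Real.exp (t ^ 4 - t ^ 2)⌋₊ := by
    have h1 : (2 : ℝ) ≤ (⌊Real.exp (t ^ 3)⌋₊ : ℝ) := by linarith [t_le_t3 t ht]
    have h2 : 2 ≤ ⌊Real.exp (t ^ 3)⌋₊ := by exact_mod_cast h1
    exact h2.trans hzy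
  have hy1 : 0 < ⌊Real.exp (t ^ 4 - t ^ 2)⌋₊ := by omega
  have hyN : ⌊Real.exp (t ^ 4 - t ^ 2)⌋₊ ≤ 3 * J := by
    have h1 : (⌊Real.exp (t ^ 4 - t ^ 2)⌋₊ : ℝ) ≤ J := by
      rw [hJ]; refine (Nat.floor_le (Real.exp_pos _).le).trans ?_
      rw [Real.exp_le_exp]; linarith [t2_ge t ht]
    have h2 : ⌊Real.exp (t ^ 4 - t ^ 2)⌋₊ ≤ J := by exact_mod_cast h1
    omega
  have hsum : ∀ i, h i ≤ ∑ i, h i := fun i =>
    single_le_sum (fun i _ => Nat.zero_le (h i)) (mem_univ i)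
  have hhz : ∀ i, h i ≤ ⌊Real.exp (t ^ 3)⌋₊ := by
    intro i
    have h1 : ((∑ i, h i : ℕ) : ℝ) ≤ t := by
      refine le_trans ?_ hH
      exact_mod_cast Nat.le_add_left _ _
    have h2 : ((∑ i, h i : ℕ) : ℝ) ≤ (⌊Real.exp (t ^ 3)⌋₊ : ℝ) := by
      linarith [t_le_t3 t ht]
    have h3 : ∑ i, h i ≤ ⌊Real.exp (t ^ 3)⌋₊ := by exact_mod_cast h2
    exact (hsum i).trans h3
  have hw : ∀ i, 3 * J + c * h i ≤ 2 ^ (⌈2 * t ^ 4⌉₊ + 2) := by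
    intro i
    have h1 : ((c * ∑ i, h i : ℕ) : ℝ) ≤ J := by
      have h2 : ((c * ∑ i, h i : ℕ) : ℝ) ≤ t := by
        refine le_trans ?_ hH
        exact_mod_cast Nat.le_add_right _ _
      exact h2.trans (t_le_J t ht J hJ)
    have h3 : c * h i ≤ J := by
      have : c * ∑ i, h i ≤ J := by exact_mod_cast h1
      exact (Nat.mul_le_mul_left c (hsum i)).trans this
    have h6 := w_bound t ht J hJ
    omega
  have hε0 : 0 < 1 / (10 * ((K : ℝ) + 1)) := by positivity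
  have htε : 1 ≤ t ^ (1 / (10 * ((K : ℝ) + 1))) := Real.one_le_rpow (by linarith) hε0.le
  have hk1 : 1 ≤ ⌈t ^ (1 / (10 * ((K : ℝ) + 1)))⌉₊ := Nat.one_le_ceil_iff.2 (by linarith)
  have hk_le : (⌈t ^ (1 / (10 * ((K : ℝ) + 1)))⌉₊ : ℝ) ≤ 2 * t ^ (1 / (10 * ((K : ℝ) + 1))) := by
    have := Nat.ceil_lt_add_one (show 0 ≤ t ^ (1 / (10 * ((K : ℝ) + 1))) by linarith)
    linarith
  have hk'1 : 1 ≤ ⌈2 * t ^ 3⌉₊ := Nat.one_le_ceil_iff.2 (by linarith [t_le_t3 t ht])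
  have hinv := inv_t3 t ht
  have hinv0 : 0 < 1 / t ^ 3 := one_div_pos.2 (pow_pos ht0 3)
  obtain ⟨v, hv1, hv2⟩ := cover_det h hpos hadm c hc (3 * J) ⌊Real.exp (t ^ 3)⌋₊
    ⌊Real.exp (t ^ 4 - t ^ 2)⌋₊ pe (⌈2 * t ^ 4⌉₊ + 2) ⌈t ^ (1 / (10 * ((K : ℝ) + 1)))⌉₊
    ⌈2 * t ^ 3⌉₊ hz1 hzy hhz hpe (Nat.le_add_left _ _ |>.trans' (by norm_num)) hw hk1
    (w_le_two_pow t _ ht ht1) hk'1 (z_le_two_pow t ht) (1 - 1 / t ^ 3) (by linarith) (by linarith)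
    (z_pow t ht) hy2 hyN
  refine ⟨v, hv1, hv2.trans ?_⟩
  have hE := hE_bound K t _ ht rfl _ hk1 hk_le
  have hF := hF_bound t ht J hJ ht2 hy1
  refine le_trans (mul_le_mul hE hF ?_ ?_) (final_bound t _ η ht J hη ht3)
  · have ht4 : 0 ≤ t ^ 4 / 2 := by positivity
    have h1 : 0 ≤ Real.log (⌊Real.exp (t ^ 4 - t ^ 2)⌋₊ : ℝ) := ht4.trans (y_log t ht hy1)
    have h2 : 0 ≤ Real.log (((3 * J : ℕ) : ℝ) / (⌊Real.exp (t ^ 4 - t ^ 2)⌋₊ : ℝ)) := by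
      apply Real.log_nonneg
      rw [le_div_iff₀ (by exact_mod_cast hy1), one_mul]
      exact_mod_cast hyN
    have h3 : 0 ≤ ((3 * J : ℕ) : ℝ) ^ (1 - 1 / t ^ 3) := Real.rpow_nonneg (Nat.cast_nonneg _) _
    have h4 : 0 ≤ (4 * Real.exp (12 * (5 + 5 * Real.log (⌈2 * t ^ 3⌉₊ : ℝ)))) :=
      mul_nonneg (by norm_num) (Real.exp_pos _).le
    have h5 := mul_nonneg h3 h4
    have h6 : 0 ≤ ((3 * J : ℕ) : ℝ) *
        ((5 * Real.log (((3 * J : ℕ) : ℝ) / (⌊Real.exp (t ^ 4 - t ^ 2)⌋₊ : ℝ)) + 3) /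
          Real.log (⌊Real.exp (t ^ 4 - t ^ 2)⌋₊ : ℝ)) :=
      mul_nonneg (Nat.cast_nonneg _) (div_nonneg (by linarith) h1)
    have h7 : 0 ≤ 2 * ((3 * J : ℕ) : ℝ) / (⌊Real.exp (t ^ 3)⌋₊ : ℝ) :=
      div_nonneg (mul_nonneg (by norm_num) (Nat.cast_nonneg _)) (Nat.cast_nonneg _)
    linarith
  · exact div_nonneg (mul_nonneg (Real.exp_pos _).le (Real.rpow_nonneg ht0.le _))
      (pow_nonneg ht0.le 3)

/-- The covering statement. -/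
theorem cover : CoverStatement := by
  intro K h _ hpos hadm c hc η hη
  refine ⟨0, ?_⟩
  have hT : Tendsto (fun J : ℕ => (Real.log J) ^ (1 / 4 : ℝ)) atTop atTop :=
    (tendsto_rpow_atTop (by norm_num)).comp
      (Real.tendsto_log_atTop.comp tendsto_natCast_atTop_atTop)
  have hε : 0 < 1 / (10 * ((K : ℝ) + 1)) := by positivity
  have e1 := hT.eventually (eventually_ge_atTop (300 : ℝ))
  have e2 := hT.eventually (eventually_ge_atTop ((c * ∑ i, h i + ∑ i, h i : ℕ) : ℝ))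
  have e3 := hT.eventually (ev_log 10 (1 / (10 * ((K : ℝ) + 1))) (by norm_num) hε)
  have e4 := hT.eventually (ev_log 364 1 (by norm_num) (by norm_num))
  have e5 := hT.eventually (ev_const (80 * Real.exp (2 + 10 * K) / η) (1 / 2) (by norm_num))
  filter_upwards [e1, e2, e3, e4, e5, eventually_ge_atTop 1] with J h1 h2 h3 h4 h5 hJ1 pe hpe _
  set t := (Real.log J) ^ (1 / 4 : ℝ) with ht
  have hlog : 0 ≤ Real.log J := Real.log_nonneg (by exact_mod_cast hJ1)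
  have hJ0 : (0 : ℝ) < J := by exact_mod_cast hJ1
  have ht4 : t ^ 4 = Real.log J := by
    rw [ht, ← Real.rpow_natCast, ← Real.rpow_mul hlog]; norm_num
  have ht2 : t ^ 2 = Real.sqrt (Real.log J) := by
    rw [ht, ← Real.rpow_natCast, ← Real.rpow_mul hlog, Real.sqrt_eq_rpow]; norm_num
  rw [Real.rpow_one] at h4
  obtain ⟨v, hv1, hv2⟩ := cover_t h hpos hadm c hc η hη t J (by rw [ht4, Real.exp_log hJ0])
    h1 h2 h3 h4 h5 pe hpe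
  have hy : ⌊Real.exp (t ^ 4 - t ^ 2)⌋₊ = yJ J := by
    rw [yJ, ht4, ht2, sub_eq_add_neg, Real.exp_add, Real.exp_log hJ0]
  rw [hy] at hv1 hv2
  refine ⟨v, hv1, ?_⟩
  rw [ht4] at hv2
  push_cast at hv2
  exact hv2

end Pool.Agent.Helper7.Cover
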